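import Pool.Agent.Lib.MP_49c83e_al.StmP

/-!
MP_49c83e_al, blocks C (charts for the parabolic tower) and D (characters of the Borel subgroup).
-/

namespace Pool.Agent.Sp49

open scoped BigOperators

/-- number of a basis vector: e_i and f_i have number i -/
def num {n : ℕ} : Fin n ⊕ Fin n → ℕ := Sum.elim (fun i => (i : ℕ)) (fun i => (i : ℕ))

/-- the tower of parabolic subgroups: Tw m stabilises the spans of e_0,...,e_l for l < m -/
abbrev Tw (k : Type) [Field k] (n m : ℕ) : Subgroup (SpG k n) := Par k n {l | l < m}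

theorem Tw_le (k : Type) [Field k] (n m : ℕ) : Tw k n (m + 1) ≤ Tw k n m :=
  Par_anti k n (fun _ (h : _ < m) => Nat.lt_succ_of_lt h)

/-- the minimal parabolic subgroup for alpha_i -/
abbrev Pm (k : Type) [Field k] (n i : ℕ) : Subgroup (SpG k n) := Par k n {l | l ≠ i}

theorem Bo_le (k : Type) [Field k] (n : ℕ) (S : Set ℕ) : Bo k n ≤ Par k n S :=
  Par_anti k n (Set.subset_univ S)

/-- [C0] Tw k n 0 is the whole group and Tw k n n is the Borel subgroup. -/
def S_C0 : Prop := ∀ (k : Type) [Field k] (n : ℕ), Tw k n 0 = ⊤ ∧ Tw k n n = Bo k n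

/-- [C1] Entries of elements of the parabolic tower: g in Tw m, l < m (as numbers):
g_(x, e_l) = 0 unless x = e_l'' with l'' ≤ l; g_(f_l, x) = 0 for every x = e_i with i ≥ m or
x = f_i with i ≥ m (g preserves the orthogonal complement of span(e_0..e_(m-1)));
same for g⁻¹. -/
def S_C1 : Prop := ∀ (k : Type) [Field k] (n m : ℕ) (g : SpG k n), g ∈ Tw k n m →
    (∀ (l : Fin n) (x : Fin n ⊕ Fin n), (l : ℕ) < m → ent g x (Sum.inl l) ≠ 0 →
      ∃ l' : Fin n, l' ≤ l ∧ x = Sum.inl l') ∧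
    (∀ (l : Fin n) (x : Fin n ⊕ Fin n), (l : ℕ) < m → m ≤ num x → ent g (Sum.inr l) x = 0)

/-- [C2] The chart system for the step Tw m > Tw (m+1), m < n (m is the number of the new line).
Index type: basis vectors x with number ≥ m.  z_x(g) = g_(x, e_m), y_x(g) = (g⁻¹)_(e_m, x)
(unimodular by [C1] and g⁻¹ g = 1), chi(h) = h_(e_m, e_m).
sigma_(e_m)(u) = the lower unipotent element fixing all e_l, f_l with l < m, with
e_m ↦ e_m + sum over x ≠ e_m (number ≥ m) of u_x x, f_m ↦ f_m,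
e_i ↦ e_i + u_(f_i) f_m, f_i ↦ f_i - u_(e_i) f_m for i > m (it is symplectic, polynomial in u and
does not use u_(e_m)).
sigma_x(u) = w_x sigma_(e_m)(u o w_x-relabelled) where w_x in Tw m is the signed permutation with
w_x e_m = x: for x = e_i the transposition (m i) on both the e and the f; for x = f_i the element
e_m ↦ f_m ↦ -e_m followed by that transposition.  Then if u_x = 1: sigma_x(u) e_m = u.
trans: if g' e_m = c g e_m modulo span(e_0..e_(m-1)) then g⁻¹ g' e_m is c e_m modulo this span, so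
g⁻¹ g' in Tw (m+1).  (The index type has two elements: e_m and f_m.) -/
def S_C2 : Prop := ∀ (k : Type) [Field k] (n m : ℕ) (hm : m < n),
    ∃ C : Chart k (Tw k n m) (Tw k n (m + 1)) {x : Fin n ⊕ Fin n // m ≤ num x},
      C.inc = Subgroup.inclusion (Tw_le k n m) ∧
      ∀ h, (C.χ h : k) = ent (h : SpG k n) (Sum.inl ⟨m, hm⟩) (Sum.inl ⟨m, hm⟩)

/-- [C3] The chart system for the minimal parabolic Pm i > Bo, i + 1 < n.
Index type Fin 2, z_0(g) = g_(e_i, e_i), z_1(g) = g_(e_(i+1), e_i), y from the row e_i of g⁻¹,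
chi(h) = h_(e_i, e_i), sigma_0(u) = y_i(u_1) (e_i ↦ e_i + u_1 e_(i+1), f_(i+1) ↦ f_(i+1) - u_1 f_i),
sigma_1(u) = w y_i(-u_0), w : e_i ↦ e_(i+1), e_(i+1) ↦ -e_i, f_i ↦ f_(i+1), f_(i+1) ↦ -f_i. -/
def S_C3 : Prop := ∀ (k : Type) [Field k] (n i : ℕ) (hi : i + 1 < n),
    ∃ C : Chart k (Pm k n i) (Bo k n) (Fin 2),
      C.inc = Subgroup.inclusion (Bo_le k n _) ∧
      ∀ h, (C.χ h : k) = ent (h : SpG k n) (Sum.inl ⟨i, by omega⟩) (Sum.inl ⟨i, by omega⟩)

/-- [C4] H^2(Sp_2n, M) → H^2(Bo, M) is injective for every rational M: if the restriction of a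
2-cocycle to Bo is the coboundary of a regular cochain then it is a coboundary.
Proof: [P15] and [C2] for m = n-1, ..., 0 (restricting modules to subgroups), [C0]. -/
def S_C4 : Prop := ∀ (k : Type) [Field k] [Infinite k] (n : ℕ) (M : Type) [AddCommGroup M]
    [Module k M] (ρ : Representation k (SpG k n) M), IsRat ρ →
    ∀ f ∈ Zc2 ρ, ∀ ψ ∈ RM k (Bo k n) M,
      (∀ a b : Bo k n, f ((a : SpG k n), (b : SpG k n)) =
        ρ (a : SpG k n) (ψ b) - ψ (a * b) + ψ a) → f ∈ Bc2 ρ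

theorem bo_diag {k : Type} [Field k] {n : ℕ} (b : Bo k n) (c : Bo k n) (i : Fin n) :
    ent ((b * c : Bo k n) : SpG k n) (Sum.inl i) (Sum.inl i) =
      ent (b : SpG k n) (Sum.inl i) (Sum.inl i) * ent (c : SpG k n) (Sum.inl i) (Sum.inl i) := by
  rw [Subgroup.coe_mul, ent_mul, Finset.sum_eq_single (Sum.inl i)]
  · intro z _ hz
    by_contra hne
    obtain ⟨l, hl, rfl⟩ := c.2.1 i (Set.mem_univ _) i le_rfl z (right_ne_zero_of_mul hne)
    obtain ⟨l2, hl2, h2⟩ := b.2.1 l (Set.mem_univ _) l le_rfl (Sum.inl i)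
      (left_ne_zero_of_mul hne)
    have h3 : i = l2 := Sum.inl_injective h2
    subst h3
    exact hz (by rw [le_antisymm hl hl2])
  · intro h
    exact absurd (Finset.mem_univ _) h

/-- the i-th diagonal entry as a character of the Borel subgroup -/
def dgB (k : Type) [Field k] (n : ℕ) (i : Fin n) : Bo k n →* kˣ where
  toFun b :=
    { val := ent (b : SpG k n) (Sum.inl i) (Sum.inl i)
      inv := ent ((b⁻¹ : Bo k n) : SpG k n) (Sum.inl i) (Sum.inl i)
      val_inv := by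
        rw [← bo_diag, mul_inv_cancel]
        simp [ent_one]
      inv_val := by
        rw [← bo_diag, inv_mul_cancel]
        simp [ent_one] }
  map_one' := by
    ext
    simp [ent_one]
  map_mul' a b := by
    ext
    exact bo_diag a b i

/-- the character b ↦ prod b_ii ^ mu_i of the Borel subgroup -/
def chB (k : Type) [Field k] {n : ℕ} (μ : Fin n → ℤ) (b : Bo k n) : kˣ :=
  ∏ i, (dgB k n i b) ^ (μ i)

/-- the one dimensional representation of the Borel subgroup with character mu -/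
def chR (k : Type) [Field k] {n : ℕ} (μ : Fin n → ℤ) : Representation k (Bo k n) k where
  toFun b := ((chB k μ b : kˣ) : k) • LinearMap.id
  map_one' := by
    ext
    simp [chB]
  map_mul' a b := by
    ext
    simp only [chB, map_mul, mul_zpow, Finset.prod_mul_distrib, Units.val_mul,
      Module.End.mul_apply, LinearMap.smul_apply, LinearMap.id_coe, id_eq,
      smul_eq_mul, mul_one]

theorem chR_apply (k : Type) [Field k] {n : ℕ} (μ : Fin n → ℤ) (b : Bo k n) (x : k) :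
    chR k μ b x = ((chB k μ b : kˣ) : k) * x := rfl

/-- [D0] The representation chR mu is rational ((b_ii)⁻¹ = (b⁻¹)_ii is a regular function). -/
def S_D0 : Prop := ∀ (k : Type) [Field k] (n : ℕ) (μ : Fin n → ℤ), IsRat (chR k μ)

/-- [D1] Vanishing for pairing 1 with alpha_i, i + 1 < n: mu_i = mu_(i+1) + 1.
Proof: [C3], [P13], [P14] with the one dimensional representation
nu(g) = prod over l ≠ i, i+1 of g_ll^mu_l times det(2x2 block at i,i+1)^mu_(i+1) of Pm i;
twR C nu = chR mu on Bo. (g_ll for l ≠ i, i+1 is multiplicative on Pm i, and so is the block.) -/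
def S_D1 : Prop := ∀ (k : Type) [Field k] [Infinite k] (n i : ℕ) (hi : i + 1 < n)
    (μ : Fin n → ℤ), μ ⟨i, by omega⟩ = μ ⟨i + 1, hi⟩ + 1 →
    Z0 (chR k μ) = ⊥ ∧ Zc1 (chR k μ) ≤ Bc1 (chR k μ) ∧ Zc2 (chR k μ) ≤ Bc2 (chR k μ)

/-- [D2] Vanishing for pairing 1 with the long simple root: mu_(n-1) = 1.
Proof: [C2] with m = n - 1 (index type with two elements), [C0] (Tw n n = Bo), [P13], [P14] with
nu(g) = prod over l < n-1 of g_ll^mu_l on Tw (n-1). -/
def S_D2 : Prop := ∀ (k : Type) [Field k] [Infinite k] (n : ℕ) (hn : 0 < n)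
    (μ : Fin n → ℤ), μ ⟨n - 1, by omega⟩ = 1 →
    Z0 (chR k μ) = ⊥ ∧ Zc1 (chR k μ) ≤ Bc1 (chR k μ) ∧ Zc2 (chR k μ) ≤ Bc2 (chR k μ)

/-- [D3] Shift for pairing 2 with alpha_i: mu_i = 1, mu_(i+1) = -1; mu' = mu - alpha_i.
Proof: N = nu ⊗ E, nu = prod over l ≠ i, i+1 of g_ll^mu_l times det(block)^(-1), E = k^2 with the
block action of Pm i; twR C N = chi ⊗ nu ⊗ E restricted to Bo has the stable line
k (1,0) with character mu and quotient with character mu'.  By [P13], [P14] its H^0, H^1, H^2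
vanish. For a 2-cocycle f of chR mu: f (1,0) = d psi, psi = (psi0, psi1); psi1 is a 1-cocycle of
chR mu'; if psi1 = d z, replace psi by psi - d (0, z): then f = d psi0'.  Apply this to f and to
linear combinations c f + c' f' (psi depends linearly on a choice: c psi + c' psi').  Same for H^1
and H^0. -/
def S_D3 : Prop := ∀ (k : Type) [Field k] [Infinite k] (n i : ℕ) (hi : i + 1 < n)
    (μ μ' : Fin n → ℤ), μ ⟨i, by omega⟩ = 1 → μ ⟨i + 1, hi⟩ = -1 →
    (∀ l, μ' l = μ l - al n i l) →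
    (Le1 (Zc1 (chR k μ')) (Bc1 (chR k μ')) → Le1 (Zc2 (chR k μ)) (Bc2 (chR k μ))) ∧
    (Zc1 (chR k μ') ≤ Bc1 (chR k μ') → Zc2 (chR k μ) ≤ Bc2 (chR k μ)) ∧
    Le1 (Zc1 (chR k μ)) (Bc1 (chR k μ)) ∧
    (μ' ≠ 0 → Zc1 (chR k μ) ≤ Bc1 (chR k μ))

/-- the torus as a subgroup of the Borel subgroup -/
def S_torBo : Prop := ∀ (k : Type) [Field k] (n : ℕ) (t : Fin n → kˣ), tor t ∈ Bo k n

/-- the projection Bo → torus is t_i = b_ii; the torus element attached to b -/
def tpart {k : Type} [Field k] {n : ℕ} (b : Bo k n) : SpG k n := tor (fun i => dgB k n i b)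

/-- [D4] Basic facts on Bo = T U: torus elements lie in Bo, tor is a regular homomorphism,
tpart(b)⁻¹ b in Uo, Uo is normal in Bo, tpart is multiplicative, tpart is regular. -/
def S_D4 : Prop := ∀ (k : Type) [Field k] (n : ℕ),
    (∀ t : Fin n → kˣ, tor t ∈ Bo k n) ∧ (∀ t t' : Fin n → kˣ, tor (t * t') = tor t * tor t') ∧
    IsReg k (fun t : Fin n → kˣ => tor t) ∧
    IsReg k (fun b : Bo k n => tpart b) ∧
    IsReg k (fun b : Bo k n => fun i => dgB k n i b) ∧
    (∀ b : Bo k n, (tpart b)⁻¹ * (b : SpG k n) ∈ Uo k n) ∧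
    (∀ b c : Bo k n, tpart (b * c) = tpart b * tpart c) ∧
    (∀ u ∈ Uo k n, ∀ b ∈ Bo k n, b * u * b⁻¹ ∈ Uo k n) ∧
    (∀ (t : Fin n → kˣ) (i : Fin n) (h : tor t ∈ Bo k n), dgB k n i ⟨tor t, h⟩ = t i)

/-- [D5] Invariant integration on the torus: a linear functional on all functions which on
regular functions is invariant under translations and sends 1 to 1; partial integration of a
regular function on X × T is regular.
Proof: characters are linearly independent (`linearIndependent_monoidHom`), extend the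
coefficient of the trivial character. -/
def S_D5 : Prop := ∀ (k : Type) [Field k] [Infinite k] (n : ℕ), ∃ I : ((Fin n → kˣ) → k) →ₗ[k] k,
    I (fun _ => 1) = 1 ∧
    (∀ F ∈ regA k (Fin n → kˣ), ∀ t0, I (fun t => F (t0 * t)) = I F) ∧
    ∀ (X : Type) [RS k X], ∀ F ∈ regA k (X × (Fin n → kˣ)), (fun x => I (fun t => F (x, t))) ∈
      regA k X

/-- [D6] Transfer from Uo to Bo: a 2-cocycle f of chR mu whose restriction to Uo is the coboundary
of a regular function psi (Uo acts trivially) is a coboundary.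
Proof: for b in Bo and s in T put t = pi(b) s (pi the projection to T), u = t⁻¹ b s in Uo,
D(b, s) = f(b, s) + mu(t) psi(u) - f(t, u), regular on Bo × T.  The cocycle identities give
f(b1, b2) + D(b1 b2, s) = mu(b1) D(b2, s) + D(b1, pi(b2) s)
(proof by the group law (m,b)(m',b') = (m + b m' + f(b,b'), b b') on k × Bo, with the homomorphism
u ↦ (-psi(u), u)).  Integrate over s with [D5]: f = d (I D(b, .)). -/
def S_D6 : Prop := ∀ (k : Type) [Field k] [Infinite k] (n : ℕ) (μ : Fin n → ℤ)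
    (huB : Uo k n ≤ Bo k n), ∀ f ∈ Zc2 (chR k μ), ∀ ψ ∈ regA k (Uo k n),
    (∀ u v : Uo k n, f (Subgroup.inclusion huB u, Subgroup.inclusion huB v) =
      ψ v - ψ (u * v) + ψ u) → f ∈ Bc2 (chR k μ)

/-- the cocharacter s ↦ diag(s^n, s^(n-1), ..., s) -/
def coch {k : Type} [Field k] {n : ℕ} (s : kˣ) : SpG k n := tor (fun i => s ^ (n - (i : ℕ)))

/-- [D7] Contraction: for F regular on Uo × Uo (or Uo) the function
F(coch(s) u coch(s)⁻¹, coch(s) v coch(s)⁻¹) is a polynomial in s with regular coefficients and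
constant term F(1, 1).  Proof: generators: entries, (coch u coch⁻¹)_(x,y) = s^(a_x - a_y) u_(x,y),
a_(e_i) = n - i, a_(f_i) = -(n - i); for u in Uo an off diagonal entry u_(x,y) ≠ 0 has
a_x > a_y (upper triangular in the order e_0, ..., e_(n-1), f_(n-1), ..., f_0), diagonal entries
are 1. The set of such F is a subalgebra. -/
def S_D7 : Prop := ∀ (k : Type) [Field k] [Infinite k] (n : ℕ)
    (hs : ∀ (s : kˣ) (u : Uo k n), coch s * (u : SpG k n) * (coch s)⁻¹ ∈ Uo k n),
    (∀ F ∈ regA k (Uo k n × Uo k n), ∃ c : ℕ → (Uo k n × Uo k n → k), ∃ N : ℕ,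
      (∀ r, c r ∈ regA k (Uo k n × Uo k n)) ∧ (∀ q, c 0 q = F (1, 1)) ∧
      ∀ (s : kˣ) (u v : Uo k n), F (⟨_, hs s u⟩, ⟨_, hs s v⟩) =
        ∑ r ∈ Finset.range N, (s : k) ^ r * c r (u, v)) ∧
    (∀ F ∈ regA k (Uo k n), ∃ c : ℕ → (Uo k n → k), ∃ N : ℕ,
      (∀ r, c r ∈ regA k (Uo k n)) ∧ (∀ q, c 0 q = F 1) ∧
      ∀ (s : kˣ) (u : Uo k n), F ⟨_, hs s u⟩ = ∑ r ∈ Finset.range N, (s : k) ^ r * c r u)

/-- [D8] Antidominant characters: mu_i ≤ 0 for all i and mu nondecreasing (only mu_i ≤ 0 is used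
through m := sum mu_i (n - i) ≤ 0, with equality iff mu = 0).
H^1: for a cocycle c: c(t u t⁻¹) = mu(t) c(u) for u in Uo, t in T; with t = coch(s),
c(coch(s) u coch(s)⁻¹) = s^m c(u) is a polynomial in s with constant term c(1) = 0 ([D7]), so c = 0
on Uo (m ≤ 0); then c(t u) = c(t), and c on T is a coboundary (integrate with [D5]: z = I(c) ...),
hence c is a coboundary.
H^2: f a cocycle; for t in T, u, v in Uo:
f(t u t⁻¹, t v t⁻¹) - mu(t) f(u, v) = theta_t(u v) - theta_t(u) - theta_t(v),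
theta_t(u) = f(t, u) - f(t u t⁻¹, t), regular in (t, u).  Take t = coch(s) and compare the
coefficients of s^m: m < 0: f(u, v) = d(theta^(m)); m = 0: f(u,v) = f(1,1) + d(..).  So f on Uo is the
coboundary of a regular function, conclude with [D6]. -/
def S_D8 : Prop := ∀ (k : Type) [Field k] [Infinite k] (n : ℕ) (μ : Fin n → ℤ),
    (∀ i, μ i ≤ 0) → Zc1 (chR k μ) ≤ Bc1 (chR k μ) ∧ Zc2 (chR k μ) ≤ Bc2 (chR k μ)

/-- [D9] Conclusion for all characters mu with entries in {0, 1, -1}.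
(a) H^1 = 0 unless mu = alpha_i for some i, i + 1 < n; always at most one dimensional.
(b) H^2 = 0 unless mu = alpha_i + alpha_j with i + 2 ≤ j, j + 1 < n; always at most one dimensional.
Proof: if mu_(n-1) = 1 use [D2]; if (mu_i, mu_(i+1)) in {(1,0), (0,-1)} use [D1]; if it is (1,-1) use
[D3] with mu' = mu - alpha_i (entries 0 at i, i+1) and (a) for mu' (mu' = alpha_j forces j ≠ i,
|j - i| ≥ 2 as mu'_i = mu'_(i+1) = 0); otherwise no entry 1 can occur (after a 1 comes a 1, the last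
entry is not 1), so mu ≤ 0 and [D8] applies. -/
def S_D9 : Prop := ∀ (k : Type) [Field k] [Infinite k] (n : ℕ) (μ : Fin n → ℤ),
    (∀ i, μ i = 0 ∨ μ i = 1 ∨ μ i = -1) →
    Le1 (Zc1 (chR k μ)) (Bc1 (chR k μ)) ∧
    ((∀ i, i + 1 < n → μ ≠ al n i) → Zc1 (chR k μ) ≤ Bc1 (chR k μ)) ∧
    Le1 (Zc2 (chR k μ)) (Bc2 (chR k μ)) ∧
    ((∀ i j, i + 2 ≤ j → j + 1 < n → μ ≠ al n i + al n j) → Zc2 (chR k μ) ≤ Bc2 (chR k μ))

end Pool.Agent.Sp49
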