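import Pool.Agent.Lib.MP_49c83e_al.Sp

/-!
MP_49c83e_al, block R: generic facts about regular functions (statements).
-/

namespace Pool.Agent.Sp49

open scoped BigOperators

/-- [R1] Regular functions on a product are sums of products; vector valued version.
Proof: the span on the right (for M = k) is a subalgebra containing the generators of the
adjoined algebra (`Algebra.adjoin_induction`), and conversely f(q.1) g(q.2) is in the algebra;
then pass to M. -/
def S_R1 : Prop := ∀ (k : Type) [Field k] (X Y M : Type) [RS k X] [RS k Y] [AddCommGroup M]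
    [Module k M] (F : X × Y → M),
    F ∈ RM k (X × Y) M ↔ F ∈ Submodule.span k {G | ∃ f ∈ regA k X, ∃ g ∈ regA k Y, ∃ m : M,
      G = fun q : X × Y => (f q.1 * g q.2) • m}

/-- [R2] Regular maps: identity, composition, constants, projections, pairing. -/
def S_R2 : Prop := ∀ (k : Type) [Field k] (X Y Z : Type) [RS k X] [RS k Y] [RS k Z],
    IsReg k (fun x : X => x) ∧
    (∀ (φ : X → Y) (ψ : Y → Z), IsReg k φ → IsReg k ψ → IsReg k (fun x => ψ (φ x))) ∧
    (∀ y : Y, IsReg k (fun _ : X => y)) ∧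
    IsReg k (fun q : X × Y => q.1) ∧ IsReg k (fun q : X × Y => q.2) ∧
    (∀ (φ : X → Y) (ψ : X → Z), IsReg k φ → IsReg k ψ → IsReg k (fun x => (φ x, ψ x)))

/-- [R3] Vector valued regular maps: pull back, linear images, products with regular functions,
constants, and for M = k they are the regular functions. -/
def S_R3 : Prop := ∀ (k : Type) [Field k] (X Y M N : Type) [RS k X] [RS k Y] [AddCommGroup M]
    [Module k M] [AddCommGroup N] [Module k N],
    (∀ (φ : X → Y) (F : Y → M), IsReg k φ → F ∈ RM k Y M → (fun x => F (φ x)) ∈ RM k X M) ∧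
    (∀ (l : M →ₗ[k] N) (F : X → M), F ∈ RM k X M → (fun x => l (F x)) ∈ RM k X N) ∧
    (∀ (f : X → k) (F : X → M), f ∈ regA k X → F ∈ RM k X M → (fun x => f x • F x) ∈ RM k X M) ∧
    (∀ (f : X → k) (F : Y → M), f ∈ regA k X → F ∈ RM k Y M →
      (fun q : X × Y => f q.1 • F q.2) ∈ RM k (X × Y) M) ∧
    (∀ m : M, (fun _ : X => m) ∈ RM k X M) ∧
    (∀ f : X → k, f ∈ RM k X k ↔ f ∈ regA k X)

/-- [R4] Lifting through surjections and restriction of the codomain (a subspace has a linear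
retraction). -/
def S_R4 : Prop := ∀ (k : Type) [Field k] (X M N : Type) [RS k X] [AddCommGroup M]
    [Module k M] [AddCommGroup N] [Module k N],
    (∀ (l : M →ₗ[k] N), Function.Surjective l → ∀ F ∈ RM k X N, ∃ F' ∈ RM k X M,
      ∀ x, l (F' x) = F x) ∧
    (∀ (P : Submodule k M) (F : X → M) (h : ∀ x, F x ∈ P), F ∈ RM k X M →
      (fun x => (⟨F x, h x⟩ : P)) ∈ RM k X P)

/-- [R5] Currying: a regular map on X × Y is a finite sum of f(x) G(y); it gives a regular map
from X to the space RM k Y M, and all its slices are regular. -/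
def S_R5 : Prop := ∀ (k : Type) [Field k] (X Y M : Type) [RS k X] [RS k Y] [AddCommGroup M]
    [Module k M] (F : X × Y → M), F ∈ RM k (X × Y) M →
    (∃ (N : ℕ) (f : Fin N → X → k) (G : Fin N → Y → M), (∀ i, f i ∈ regA k X) ∧
      (∀ i, G i ∈ RM k Y M) ∧ ∀ x y, F (x, y) = ∑ i, f i x • G i y) ∧
    (∀ x, (fun y => F (x, y)) ∈ RM k Y M) ∧ (∀ y, (fun x => F (x, y)) ∈ RM k X M) ∧
    (∀ h : ∀ x, (fun y => F (x, y)) ∈ RM k Y M,
      (fun x => (⟨fun y => F (x, y), h x⟩ : RM k Y M)) ∈ RM k X (RM k Y M))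

/-- [R6] A vector valued regular map is a finite sum with linearly independent vectors
(choose a basis of a finite dimensional subspace containing the vectors of any expression).
Uncurrying: if Φ : X → RM k Y M is regular then (x, y) ↦ Φ x y is regular. -/
def S_R6 : Prop := ∀ (k : Type) [Field k] (X Y M : Type) [RS k X] [RS k Y] [AddCommGroup M]
    [Module k M],
    (∀ F ∈ RM k X M, ∃ (N : ℕ) (f : Fin N → X → k) (m : Fin N → M), LinearIndependent k m ∧
      (∀ i, f i ∈ regA k X) ∧ ∀ x, F x = ∑ i, f i x • m i) ∧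
    (∀ Φ : X → RM k Y M, Φ ∈ RM k X (RM k Y M) →
      (fun q : X × Y => (Φ q.1 : Y → M) q.2) ∈ RM k (X × Y) M)

/-- [R7] Acting by a regular family of group elements on a regular family of vectors of a
rational module. Proof: F = sum f_i • m_i, rho(g) m_i = sum h_ij(g) • m_ij. -/
def S_R7 : Prop := ∀ (k : Type) [Field k] (X Γ M : Type) [RS k X] [Group Γ] [RS k Γ]
    [AddCommGroup M] [Module k M] (ρ : Representation k Γ M), IsRat ρ →
    ∀ (a : X → Γ) (F : X → M), IsReg k a → F ∈ RM k X M → (fun x => ρ (a x) (F x)) ∈ RM k X M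

/-- [R8] Groups: products and inverses of regular maps; subgroups. -/
def S_R8 : Prop := ∀ (k : Type) [Field k] (X Γ : Type) [RS k X] [Group Γ] [RS k Γ] [RG k Γ],
    (∀ a b : X → Γ, IsReg k a → IsReg k b → IsReg k (fun x => a x * b x)) ∧
    (∀ a : X → Γ, IsReg k a → IsReg k (fun x => (a x)⁻¹)) ∧
    (∀ H : Subgroup Γ, RG k H) ∧
    (∀ H : Subgroup Γ, IsReg k (fun h : H => (h : Γ))) ∧
    (∀ (H : Subgroup Γ) (φ : X → H), IsReg k φ ↔ IsReg k (fun x => (φ x : Γ))) ∧
    (∀ (H H' : Subgroup Γ) (hh : H ≤ H') (f : H → k), f ∈ regA k H ↔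
      ∃ F ∈ regA k H', f = fun h => F (Subgroup.inclusion hh h))

/-- [R9] The symplectic group is a group with regular operations (inverse = - J g^T J), and a map
into it is regular iff its entries are. -/
def S_R9 : Prop := ∀ (k : Type) [Field k] (n : ℕ), RG k (SpG k n) ∧
    (∀ x y, (fun g : SpG k n => ent g x y) ∈ regA k (SpG k n)) ∧
    ∀ (X : Type) [RS k X] (φ : X → SpG k n),
      IsReg k φ ↔ ∀ x y, (fun u => ent (φ u) x y) ∈ regA k X

/-- [R10] Regular maps into k, k^ι, k^* and the torus are given by regular coordinates. -/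
def S_R10 : Prop := ∀ (k : Type) [Field k] (X ι : Type) [RS k X],
    (∀ φ : X → k, IsReg k φ ↔ φ ∈ regA k X) ∧
    (∀ φ : X → ι → k, IsReg k φ ↔ ∀ i, (fun x => φ x i) ∈ regA k X) ∧
    (∀ φ : X → kˣ, IsReg k φ ↔ ((fun x => (φ x : k)) ∈ regA k X ∧
      (fun x => (((φ x)⁻¹ : kˣ) : k)) ∈ regA k X)) ∧
    (∀ φ : X → ι → kˣ, IsReg k φ ↔ ∀ i, (fun x => (φ x i : k)) ∈ regA k X ∧
      (fun x => (((φ x i)⁻¹ : kˣ) : k)) ∈ regA k X)

/-- [R11] Polynomial expansion in one variable; it is unique, even if the values are only known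
outside a finite set. -/
def S_R11 : Prop := ∀ (k : Type) [Field k] [Infinite k] (M : Type) [AddCommGroup M] [Module k M],
    (∀ F ∈ RM k k M, ∃ c : ℕ →₀ M, ∀ s : k, F s = c.sum fun i m => s ^ i • m) ∧
    (∀ c : ℕ →₀ M, (fun s : k => c.sum fun i m => s ^ i • m) ∈ RM k k M) ∧
    (∀ (c c' : ℕ →₀ M) (A : Set k), A.Finite →
      (∀ s, s ∉ A → (c.sum fun i m => s ^ i • m) = c'.sum fun i m => s ^ i • m) → c = c')

/-- [R12] Laurent expansion on k^*, existence and uniqueness. -/
def S_R12 : Prop := ∀ (k : Type) [Field k] [Infinite k] (M : Type) [AddCommGroup M] [Module k M],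
    (∀ F ∈ RM k kˣ M, ∃ c : ℤ →₀ M, ∀ s : kˣ, F s = c.sum fun i m => ((s ^ i : kˣ) : k) • m) ∧
    (∀ c : ℤ →₀ M, (fun s : kˣ => c.sum fun i m => ((s ^ i : kˣ) : k) • m) ∈ RM k kˣ M) ∧
    (∀ c c' : ℤ →₀ M, (∀ s : kˣ, (c.sum fun i m => ((s ^ i : kˣ) : k) • m) =
      c'.sum fun i m => ((s ^ i : kˣ) : k) • m) → c = c')

/-- [R13] Expansion in characters on the torus, existence and uniqueness (characters
t ↦ prod t_i^mu_i are distinct for distinct mu because k is infinite, so linearly independent,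
`linearIndependent_monoidHom`). -/
def S_R13 : Prop := ∀ (k : Type) [Field k] [Infinite k] (n : ℕ) (M : Type) [AddCommGroup M]
    [Module k M],
    (∀ F ∈ RM k (Fin n → kˣ) M, ∃ c : (Fin n → ℤ) →₀ M, ∀ t : Fin n → kˣ,
      F t = c.sum fun μ m => chT μ t • m) ∧
    (∀ c : (Fin n → ℤ) →₀ M, (fun t : Fin n → kˣ => c.sum fun μ m => chT μ t • m) ∈
      RM k (Fin n → kˣ) M) ∧
    (∀ c c' : (Fin n → ℤ) →₀ M, (∀ t : Fin n → kˣ, (c.sum fun μ m => chT μ t • m) =
      c'.sum fun μ m => chT μ t • m) → c = c')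

/-- [R14] Regular functions on k^ι are the polynomial functions. -/
def S_R14 : Prop := ∀ (k : Type) [Field k] (ι : Type) [Fintype ι] (f : (ι → k) → k),
    f ∈ regA k (ι → k) ↔ ∃ P : MvPolynomial ι k, ∀ u, f u = MvPolynomial.eval u P

/-- [R15] For rational modules coboundaries are rational cocycles. -/
def S_R15 : Prop := ∀ (k : Type) [Field k] (Γ M : Type) [Group Γ] [RS k Γ] [RG k Γ]
    [AddCommGroup M] [Module k M] (ρ : Representation k Γ M), IsRat ρ →
    Bc1 ρ ≤ Zc1 ρ ∧ Bc2 ρ ≤ Zc2 ρ ∧ ∀ m : M, d0 ρ m ∈ RM k Γ M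

end Pool.Agent.Sp49
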