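import Pool.Agent.Lib.MP_49c83e_al.StmR

/-!
MP_49c83e_al, block P: projective space arguments (Cech + Hochschild), statements.

A chart system for a group Gm acting on a vector space (first column z) with stabiliser P of the
line through the base vector.  For x in Gm with z_i(x) ≠ 0 one has x = sigma_i(u) inc(p) with
u = z(x)/z_i(x), chi(p) = z_i(x), p unique.
-/

namespace Pool.Agent.Sp49

open scoped BigOperators

/-- projective chart systems -/
structure Chart (k : Type) [Field k] (Gm P : Type) [Group Gm] [Group P] [RS k Gm] [RS k P]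
    (ι : Type) [Fintype ι] where
  inc : P →* Gm
  inc_inj : Function.Injective inc
  reg : ∀ f : P → k, f ∈ regA k P ↔ ∃ F ∈ regA k Gm, f = fun h => F (inc h)
  z : ι → Gm → k
  z_reg : ∀ i, z i ∈ regA k Gm
  y : ι → Gm → k
  y_reg : ∀ i, y i ∈ regA k Gm
  unimod : ∀ g, ∑ i, y i g * z i g = 1
  χ : P →* kˣ
  χ_reg : (fun h => (χ h : k)) ∈ regA k P
  χ_reg' : (fun h => (((χ h)⁻¹ : kˣ) : k)) ∈ regA k P
  z_χ : ∀ g h i, z i (g * inc h) = z i g * χ h
  σ : ι → (ι → k) → Gm
  σ_reg : ∀ i, IsReg k (σ i)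
  z_σ : ∀ i u, u i = 1 → ∀ j, z j (σ i u) = u j
  trans : ∀ (g g' : Gm) (c : k), c ≠ 0 → (∀ j, z j g' = c * z j g) → ∃ h, g' = g * inc h
  two : ∃ i j : ι, i ≠ j

/-- F is regular on the locus z ≠ 0 -/
def LR (k : Type) [Field k] {X : Type} [RS k X] (z : X → k) (F : X → k) : Prop :=
  ∃ N : ℕ, ∃ Φ ∈ regA k X, ∀ x, z x ≠ 0 → Φ x = z x ^ N * F x

/-- [P1] Calculus of LR: sums, products, powers, finite sums, enlarging the denominator,
regular functions, quotients z'/z^N. -/
def S_P1 : Prop := ∀ (k : Type) [Field k] (X : Type) [RS k X] (z w : X → k),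
    z ∈ regA k X → w ∈ regA k X →
    (∀ F G, LR k z F → LR k z G → LR k z (fun x => F x + G x)) ∧
    (∀ F G, LR k z F → LR k z G → LR k z (fun x => F x - G x)) ∧
    (∀ F G, LR k z F → LR k z G → LR k z (fun x => F x * G x)) ∧
    (∀ F ∈ regA k X, LR k z F) ∧
    (∀ F, LR k z F → LR k (fun x => z x * w x) F) ∧
    (∀ F, LR k z F → LR k (fun x => w x * z x) F) ∧
    (∀ F G, LR k z F → (∀ x, z x ≠ 0 → G x = F x) → LR k z G) ∧
    LR k z (fun x => (z x)⁻¹) ∧
    (∀ (A : Type) (s : Finset A) (F : A → X → k), (∀ a ∈ s, LR k z (F a)) →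
      LR k z (fun x => ∑ a ∈ s, F a x))

/-- [P2] Gluing: if z_i are unimodular and F is regular on each locus z_i ≠ 0 then F is regular.
Proof: common N; z_i^N F agrees with a regular Phi_i where z_i ≠ 0; replacing N by N+1 (multiply
by z_i) it agrees everywhere; from sum y_i z_i = 1 get 1 = sum w_i z_i^N with regular w_i
(expand (sum y_i z_i)^(N card ι), or ideal argument `Ideal.span_pow_eq_top`), so
F = sum w_i Phi_i. -/
def S_P2 : Prop := ∀ (k : Type) [Field k] (X ι : Type) [RS k X] [Fintype ι]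
    (z y : ι → X → k), (∀ i, z i ∈ regA k X) → (∀ i, y i ∈ regA k X) →
    (∀ x, ∑ i, y i x * z i x = 1) → ∀ F : X → k, (∀ i, LR k (z i) F) → F ∈ regA k X

/-- [P3] Local pull back along the slice: for a regular family Phi on T × Gm and a chart i,
the function (t, x) ↦ Phi (t, sigma_i(z(x)/z_i(x))) is regular on the locus z_i(x) ≠ 0, and the
element p with x = sigma_i(z(x)/z_i(x)) inc(p) depends regularly on x there: for f regular on
T × P × Gm the function (t, x) ↦ f(t, p, sigma_i(..)) is regular where z_i(x) ≠ 0.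
Here p : Gm → P is any function with x = sigma_i(z(x)/z_i(x)) inc(p x) when z_i x ≠ 0.
Proof: f(t, p, y) = F(t, inc p, y) for a regular F on T × Gm × Gm (use chart field reg and [R1]);
inc(p x) = sigma_i(u)⁻¹ x; the function (t, x, u) ↦ F(t, sigma_i(u)⁻¹ x, sigma_i(u)) is regular on
T × Gm × (ι → k), hence a finite sum of products of a regular function of (t, x) and a monomial
in u ([R1], [R14]); substitute u_j = z_j(x)/z_i(x) and multiply by z_i^N. -/
def S_P3 : Prop := ∀ (k : Type) [Field k] (Gm P ι T : Type) [Group Gm] [Group P] [RS k Gm]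
    [RS k P] [RG k Gm] [Fintype ι] [RS k T] (C : Chart k Gm P ι) (i : ι) (p : Gm → P),
    (∀ x, C.z i x ≠ 0 → x = C.σ i (fun j => C.z j x / C.z i x) * C.inc (p x)) →
    ∀ f ∈ regA k (T × P × Gm),
      LR k (fun q : T × Gm => C.z i q.2)
        (fun q : T × Gm => f (q.1, p q.2, C.σ i (fun j => C.z j q.2 / C.z i q.2)))

/-- [P4] The decomposition: for every chart system and i there is p with
x = sigma_i(z(x)/z_i(x)) inc(p x) when z_i x ≠ 0, and then chi(p x) = z_i x and
p (x inc h) = p x * h. (From trans with c = z_i x; z_i(sigma_i u) = 1.) -/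
def S_P4 : Prop := ∀ (k : Type) [Field k] (Gm P ι : Type) [Group Gm] [Group P] [RS k Gm]
    [RS k P] [Fintype ι] (C : Chart k Gm P ι) (i : ι), ∃ p : Gm → P,
    (∀ x, C.z i x ≠ 0 → x = C.σ i (fun j => C.z j x / C.z i x) * C.inc (p x)) ∧
    (∀ x, C.z i x ≠ 0 → (C.χ (p x) : k) = C.z i x) ∧
    (∀ x h, C.z i x ≠ 0 → p (x * C.inc h) = p x * h) ∧
    (∀ x h, C.z i x ≠ 0 → (fun j => C.z j (x * C.inc h) / C.z i (x * C.inc h)) =
      fun j => C.z j x / C.z i x)

/-- [P5] Homogeneous functions: a function D, regular on z_i z_j ≠ 0 (i ≠ j), with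
chi(h)^e D(x inc h) = D(x) there, is a Laurent polynomial in z, homogeneous of degree -e, whose
exponents at l ≠ i, j are nonnegative.
Proof: by [P4] D(x) = z_i(x)^(-e) D(sigma_i(u)), u = z/z_i.  If Phi = (z_i z_j)^N D on the locus,
Phi regular, then at x = sigma_i(u), u_i = 1, u_j ≠ 0: Phi(sigma_i u) = u_j^N D(sigma_i u), and
u ↦ Phi(sigma_i(u)) is a polynomial Q(u) ([R14]); so
D(x) = z_i^(-e) (z_j/z_i)^(-N) Q(z/z_i) on z_i z_j ≠ 0; expand in monomials. -/
def S_P5 : Prop := ∀ (k : Type) [Field k] [Infinite k] (Gm P ι : Type) [Group Gm] [Group P]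
    [RS k Gm] [RS k P] [RG k Gm] [Fintype ι] [DecidableEq ι] (C : Chart k Gm P ι) (i j : ι)
    (e : ℕ) (D : Gm → k), i ≠ j → LR k (fun x => C.z i x * C.z j x) D →
    (∀ x h, C.z i x ≠ 0 → C.z j x ≠ 0 → (C.χ h : k) ^ e * D (x * C.inc h) = D x) →
    ∃ c : (ι → ℤ) →₀ k, (∀ m ∈ c.support, (∑ l, m l = -(e : ℤ)) ∧
        ∀ l, l ≠ i → l ≠ j → 0 ≤ m l) ∧
      ∀ x, C.z i x ≠ 0 → C.z j x ≠ 0 → D x = c.sum fun m a => a * ∏ l, C.z l x ^ m l

/-- [P6] Laurent polynomials are determined by their values at the points z(x) with all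
coordinates nonzero (for u with all u_l ≠ 0 and u_i = 1 the point sigma_i(u) has z = u; for
homogeneous c, c' of the same degree -e this suffices). -/
def S_P6 : Prop := ∀ (k : Type) [Field k] [Infinite k] (Gm P ι : Type) [Group Gm] [Group P]
    [RS k Gm] [RS k P] [Fintype ι] [DecidableEq ι] (C : Chart k Gm P ι) (e : ℕ)
    (c c' : (ι → ℤ) →₀ k), (∀ m ∈ c.support, ∑ l, m l = -(e : ℤ)) →
    (∀ m ∈ c'.support, ∑ l, m l = -(e : ℤ)) →
    (∀ x, (∀ l, C.z l x ≠ 0) → (c.sum fun m a => a * ∏ l, C.z l x ^ m l) =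
      c'.sum fun m a => a * ∏ l, C.z l x ^ m l) → c = c'

/-- [P7] Cech H^1(O(-e)) = 0 for e = 0, 1, combinatorial form.  c i j (i ≠ j) Laurent polynomials
homogeneous of degree -e with exponents nonnegative outside i, j, alternating and additive.
Proof: Neg(m) = {l | m l < 0}.  c i j has no monomial with Neg = {i, j}: if there is a third index
l, c i j = c i l + c l j has only monomials with Neg in {i, l} or {l, j}; if ι = {i, j} the
degree of such a monomial is ≤ -2.  Put G i = the part of c i j with Neg = {i} (independent of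
j ≠ i: the difference of c i j and c i l is c l j (up to sign), whose monomials have Neg in
{l, j}) plus, if e = 0, the constant term of c i i0 for a fixed i0 (and 0 if i = i0); a monomial of
degree 0 with Neg empty is the constant 1; for e = 1 Neg is never empty. -/
def S_P7 : Prop := ∀ (k : Type) [Field k] (ι : Type) [Fintype ι] [DecidableEq ι] (e : ℕ),
    e ≤ 1 → (∃ i j : ι, i ≠ j) → ∀ c : ι → ι → ((ι → ℤ) →₀ k),
    (∀ i j, i ≠ j → ∀ m ∈ (c i j).support, (∑ l, m l = -(e : ℤ)) ∧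
      ∀ l, l ≠ i → l ≠ j → 0 ≤ m l) →
    (∀ i j, i ≠ j → c j i = - c i j) →
    (∀ i j l, i ≠ j → j ≠ l → i ≠ l → c i j + c j l = c i l) →
    ∃ G : ι → ((ι → ℤ) →₀ k), (∀ i, ∀ m ∈ (G i).support, (∑ l, m l = -(e : ℤ)) ∧
      ∀ l, l ≠ i → 0 ≤ m l) ∧ ∀ i j, i ≠ j → c i j = G i - G j

/-- [P8] Homogeneous regular functions of degree 0 are constant and of degree -1 are zero.
Proof: [P5] for two different i, j gives Laurent expansions; F is regular everywhere so by [P5]
applied to ... : on z_i ≠ 0, F(x) = z_i^(-e) F(sigma_i(z/z_i)) with F(sigma_i(u)) polynomial in u: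
all exponents outside i are ≥ 0; the same with j ≠ i; compare ([P6]): all exponents are ≥ 0 and the
degree is -e: for e = 0 only the constant, for e ≥ 1 nothing. -/
def S_P8 : Prop := ∀ (k : Type) [Field k] [Infinite k] (Gm P ι : Type) [Group Gm] [Group P]
    [RS k Gm] [RS k P] [RG k Gm] [Fintype ι] [DecidableEq ι] (C : Chart k Gm P ι)
    (M : Type) [AddCommGroup M] [Module k M] (F : Gm → M), F ∈ RM k Gm M →
    ((∀ x h, F (x * C.inc h) = F x) → ∀ x, F x = F 1) ∧
    ((∀ x h, (C.χ h : k) • F (x * C.inc h) = F x) → ∀ x, F x = 0)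

/-- [P9] H^1(P, k[Gm] twisted by chi^e) = 0 for e = 0, 1, scalar version.
Proof: for each i, with p = p_i of [P4], put F_i(x) = chi(p x)^(-e) b(p x, sigma_i(..)); then on
z_i(x) ≠ 0: chi(h)^e F_i(x inc h) - F_i(x) = b(h, x) (use the relation at the base point sigma_i
with h1 = p x, h2 = h), and F_i is LR for z_i by [P3] (T = Unit, or a product with a point) and
chi(p x) = z_i x.  On z_i z_j ≠ 0 the difference D = F_i - F_j satisfies the hypothesis of [P5]; take
c i j; by [P6] they satisfy the hypotheses of [P7] (choose c j i = - c i j); get G i.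
F := F_i - G_i(z) on z_i ≠ 0 is well defined, LR for every z_i (G_i(z) is LR for z_i), so regular by
[P2], and satisfies the relation everywhere (each x has some z_i(x) ≠ 0 by unimod, and
G_i(z(x inc h)) chi(h)^e = G_i(z(x)) by homogeneity). -/
def S_P9 : Prop := ∀ (k : Type) [Field k] [Infinite k] (Gm P ι : Type) [Group Gm] [Group P]
    [RS k Gm] [RS k P] [RG k Gm] [Fintype ι] [DecidableEq ι] (C : Chart k Gm P ι) (e : ℕ),
    e ≤ 1 → ∀ b ∈ regA k (P × Gm),
    (∀ h1 h2 x, b (h1 * h2, x) = b (h1, x) + (C.χ h1 : k) ^ e * b (h2, x * C.inc h1)) →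
    ∃ F ∈ regA k Gm, ∀ h x, b (h, x) = (C.χ h : k) ^ e * F (x * C.inc h) - F x

/-- [P10] Vector valued version of [P9] (write b with linearly independent vectors, [R6]). -/
def S_P10 : Prop := ∀ (k : Type) [Field k] [Infinite k] (Gm P ι : Type) [Group Gm] [Group P]
    [RS k Gm] [RS k P] [RG k Gm] [Fintype ι] [DecidableEq ι] (C : Chart k Gm P ι) (e : ℕ)
    (M : Type) [AddCommGroup M] [Module k M],
    e ≤ 1 → ∀ b ∈ RM k (P × Gm) M,
    (∀ h1 h2 x, b (h1 * h2, x) = b (h1, x) + (C.χ h1 : k) ^ e • b (h2, x * C.inc h1)) →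
    ∃ F ∈ RM k Gm M, ∀ h x, b (h, x) = (C.χ h : k) ^ e • F (x * C.inc h) - F x

/-- [P11] H^2(P, k[Gm] twisted by chi) = 0 when ι = {i, j} has two elements, scalar version.
Proof: A_i(a, x) := chi(p x)⁻¹ f(p x, a, sigma_i(..)) (p = p_i of [P4]) satisfies
f(a, b, x) = chi(a) A_i(b, x inc a) - A_i(a b, x) + A_i(a, x) on z_i(x) ≠ 0 (relation at the base point
with first argument p x), LR for z_i (on P × Gm).  D = A_i - A_j on z_i z_j ≠ 0 satisfies
D(a b, x) = D(a, x) + chi(a) D(b, x inc a); put H(x) = chi(p x)⁻¹ D(p x, sigma_i(..)), then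
D(a, x) = chi(a) H(x inc a) - H(x) on z_i z_j ≠ 0 and H is LR for z_i z_j.  Split H = H_i - H_j with
H_i LR for z_i, H_j LR for z_j: 1 = alpha z_i^N + beta z_j^N (alpha, beta regular, as in [P2]),
z_i^N z_j^N H = Phi: H = alpha Phi / z_j^N + beta Phi / z_i^N.  Then
A := A_i - (chi(a) H_i(x inc a) - H_i(x)) on z_i ≠ 0 and A_j - (...H_j...) on z_j ≠ 0 agree on the
overlap; A is regular by [P2] (on X = P × Gm). -/
def S_P11 : Prop := ∀ (k : Type) [Field k] [Infinite k] (Gm P ι : Type) [Group Gm] [Group P]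
    [RS k Gm] [RS k P] [RG k Gm] [RG k P] [Fintype ι] [DecidableEq ι] (C : Chart k Gm P ι),
    Fintype.card ι = 2 → ∀ f ∈ regA k (P × P × Gm),
    (∀ a b c x, (C.χ a : k) * f (b, c, x * C.inc a) - f (a * b, c, x) + f (a, b * c, x) -
      f (a, b, x) = 0) →
    ∃ A ∈ regA k (P × Gm), ∀ a b x,
      f (a, b, x) = (C.χ a : k) * A (b, x * C.inc a) - A (a * b, x) + A (a, x)

/-- [P12] Vector valued version of [P11]. -/
def S_P12 : Prop := ∀ (k : Type) [Field k] [Infinite k] (Gm P ι : Type) [Group Gm] [Group P]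
    [RS k Gm] [RS k P] [RG k Gm] [RG k P] [Fintype ι] [DecidableEq ι] (C : Chart k Gm P ι)
    (M : Type) [AddCommGroup M] [Module k M],
    Fintype.card ι = 2 → ∀ f ∈ RM k (P × P × Gm) M,
    (∀ a b c x, (C.χ a : k) • f (b, c, x * C.inc a) - f (a * b, c, x) + f (a, b * c, x) -
      f (a, b, x) = 0) →
    ∃ A ∈ RM k (P × Gm) M, ∀ a b x,
      f (a, b, x) = (C.χ a : k) • A (b, x * C.inc a) - A (a * b, x) + A (a, x)

/-- the representation chi ⊗ N of P for a representation N of Gm -/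
def twR {k : Type} [Field k] {Gm P ι : Type} [Group Gm] [Group P] [RS k Gm] [RS k P] [Fintype ι]
    (C : Chart k Gm P ι) {N : Type} [AddCommGroup N] [Module k N]
    (ρ : Representation k Gm N) : Representation k P N where
  toFun h := (C.χ h : k) • ρ (C.inc h)
  map_one' := by simp
  map_mul' a b := by
    ext m
    simp only [map_mul, Units.val_mul, LinearMap.smul_apply, Module.End.mul_apply, map_smul,
      mul_smul]
    rw [smul_comm]

/-- [P13] Vanishing of H^0, H^1 of chi ⊗ N.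
H^0: if chi(h) rho(h) m = m for all h then F(x) = rho(x) m satisfies the second hypothesis of
[P8], so m = F(1) = 0.
H^1: for a cocycle f put b(h, x) = rho(x) f(h); [P10] with e = 1 gives F with
rho(x) f(h) = chi(h) F(x inc h) - F(x).  For fixed x' the function x ↦ F(x' x) - rho(x') F(x) is
killed by [P8], so F(x) = rho(x) F(1), and x = 1 gives f = coboundary of F(1). -/
def S_P13 : Prop := ∀ (k : Type) [Field k] [Infinite k] (Gm P ι : Type) [Group Gm] [Group P]
    [RS k Gm] [RS k P] [RG k Gm] [RG k P] [Fintype ι] [DecidableEq ι] (C : Chart k Gm P ι)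
    (N : Type) [AddCommGroup N] [Module k N] (ρ : Representation k Gm N), IsRat ρ →
    Z0 (twR C ρ) = ⊥ ∧ Zc1 (twR C ρ) ≤ Bc1 (twR C ρ)

/-- [P14] Vanishing of H^2 of chi ⊗ N when ι has two elements.
Proof: f a cocycle; (a, b, x) ↦ rho(x) f(a, b) satisfies the hypothesis of [P12]; get A with
rho(x) f(a,b) = chi(a) A(b, x a) - A(a b, x) + A(a, x).  For x' in Gm put
Phi_x'(a, x) = A(a, x' x) - rho(x') A(a, x); then Phi(ab,x) = Phi(a,x) + chi(a) Phi(b, x a).
Regard Phi as a regular map on P × Gm with values in RM k Gm N (currying [R5]); [P10] with e = 1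
gives H(x', x), regular on Gm × Gm, with Phi_x'(a, x) = chi(a) H(x', x a) - H(x', x); by uniqueness
([P8]) H(x'' x', x) = H(x'', x' x) + rho(x'') H(x', x).  Put E(x) = H(x, 1): then
H(x'', x') = E(x'' x') - rho(x'') E(x').  A'(a, x) := A(a, x) - (chi(a) E(x a) - E(x)) satisfies
A'(a, x' x) = rho(x') A'(a, x), so A'(a, x) = rho(x) psi(a), psi(a) = A'(a, 1), and f = d psi. -/
def S_P14 : Prop := ∀ (k : Type) [Field k] [Infinite k] (Gm P ι : Type) [Group Gm] [Group P]
    [RS k Gm] [RS k P] [RG k Gm] [RG k P] [Fintype ι] [DecidableEq ι] (C : Chart k Gm P ι)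
    (N : Type) [AddCommGroup N] [Module k N] (ρ : Representation k Gm N), IsRat ρ →
    Fintype.card ι = 2 → Zc2 (twR C ρ) ≤ Bc2 (twR C ρ)

/-- [P15] H^2(Gm, M) → H^2(P, M) is injective.
Proof: f a 2-cocycle of Gm, f(inc a, inc b) = rho(a) psi(b) - psi(ab) + psi(a).
b(h, x) := f(x, inc h) - rho(x) psi(h) satisfies b(h1 h2, x) = b(h1, x) + b(h2, x h1); [P10] with e = 0
gives F with f(x, h) = rho(x) psi(h) + F(x h) - F(x).  Replace f by f' = f - d(-F):
f'(a, b) = f(a, b) + rho(a) F(b) - F(ab) + F(a); then f'(x, h) = rho(x) psi1(h) with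
psi1(h) = psi(h) + F(inc h).  Put x = 1: psi1(h) = f'(1, h) = f'(1, 1) =: m0 (cocycle identity
for (1, 1, h)).  Subtract the coboundary of the constant cochain m0 (which is rho(a) m0): f''(x, h) = 0
for h in P.  The cocycle identity (a, b, h) gives f''(a, b h) = f''(a, b); by [P8] f''(a, b) = f''(a, 1)
= 0. -/
def S_P15 : Prop := ∀ (k : Type) [Field k] [Infinite k] (Gm P ι : Type) [Group Gm] [Group P]
    [RS k Gm] [RS k P] [RG k Gm] [RG k P] [Fintype ι] [DecidableEq ι] (C : Chart k Gm P ι)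
    (M : Type) [AddCommGroup M] [Module k M] (ρ : Representation k Gm M), IsRat ρ →
    ∀ f ∈ Zc2 ρ, ∀ ψ ∈ RM k P M,
      (∀ a b, f (C.inc a, C.inc b) = ρ (C.inc a) (ψ b) - ψ (a * b) + ψ a) → f ∈ Bc2 ρ

end Pool.Agent.Sp49
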