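import Pool.Agent.Lib.MP_49c83e_al.P.C0
import Pool.Agent.Lib.MP_49c83e_al.P.C1
import Pool.Agent.Lib.MP_49c83e_al.P.D7
import Pool.Agent.Lib.MP_49c83e_al.P.G1
import Pool.Agent.Lib.MP_49c83e_al.P.G2
import Pool.Agent.Lib.MP_49c83e_al.P.G3
import Pool.Agent.Lib.MP_49c83e_al.P.M1
import Pool.Agent.Lib.MP_49c83e_al.P.M14
import Pool.Agent.Lib.MP_49c83e_al.P.M3
import Pool.Agent.Lib.MP_49c83e_al.P.M4
import Pool.Agent.Lib.MP_49c83e_al.P.M5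
import Pool.Agent.Lib.MP_49c83e_al.P.M6
import Pool.Agent.Lib.MP_49c83e_al.P.M7
import Pool.Agent.Lib.MP_49c83e_al.P.M8
import Pool.Agent.Lib.MP_49c83e_al.P.M9
import Pool.Agent.Lib.MP_49c83e_al.P.P1
import Pool.Agent.Lib.MP_49c83e_al.P.P2
import Pool.Agent.Lib.MP_49c83e_al.P.P4
import Pool.Agent.Lib.MP_49c83e_al.P.P6
import Pool.Agent.Lib.MP_49c83e_al.P.P7
import Pool.Agent.Lib.MP_49c83e_al.P.R1
import Pool.Agent.Lib.MP_49c83e_al.P.R10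
import Pool.Agent.Lib.MP_49c83e_al.P.R11
import Pool.Agent.Lib.MP_49c83e_al.P.R12
import Pool.Agent.Lib.MP_49c83e_al.P.R13
import Pool.Agent.Lib.MP_49c83e_al.P.R14
import Pool.Agent.Lib.MP_49c83e_al.P.R2
import Pool.Agent.Lib.MP_49c83e_al.P.R3
import Pool.Agent.Lib.MP_49c83e_al.P.R4
import Pool.Agent.Lib.MP_49c83e_al.P.R5
import Pool.Agent.Lib.MP_49c83e_al.P.R6
import Pool.Agent.Lib.MP_49c83e_al.P.R7
import Pool.Agent.Lib.MP_49c83e_al.P.R8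
import Pool.Agent.Lib.MP_49c83e_al.P.R9
import Pool.Agent.Lib.MP_49c83e_al.P.C2
import Pool.Agent.Lib.MP_49c83e_al.P.C3
import Pool.Agent.Lib.MP_49c83e_al.P.D0
import Pool.Agent.Lib.MP_49c83e_al.P.D4
import Pool.Agent.Lib.MP_49c83e_al.P.D5
import Pool.Agent.Lib.MP_49c83e_al.P.D6
import Pool.Agent.Lib.MP_49c83e_al.P.D8
import Pool.Agent.Lib.MP_49c83e_al.P.E1
import Pool.Agent.Lib.MP_49c83e_al.P.E10
import Pool.Agent.Lib.MP_49c83e_al.P.E2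
import Pool.Agent.Lib.MP_49c83e_al.P.E3
import Pool.Agent.Lib.MP_49c83e_al.P.E4
import Pool.Agent.Lib.MP_49c83e_al.P.E5
import Pool.Agent.Lib.MP_49c83e_al.P.E6
import Pool.Agent.Lib.MP_49c83e_al.P.E7
import Pool.Agent.Lib.MP_49c83e_al.P.G4
import Pool.Agent.Lib.MP_49c83e_al.P.G5
import Pool.Agent.Lib.MP_49c83e_al.P.G6
import Pool.Agent.Lib.MP_49c83e_al.P.M10
import Pool.Agent.Lib.MP_49c83e_al.P.M11
import Pool.Agent.Lib.MP_49c83e_al.P.M12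
import Pool.Agent.Lib.MP_49c83e_al.P.M13
import Pool.Agent.Lib.MP_49c83e_al.P.M2
import Pool.Agent.Lib.MP_49c83e_al.P.P3
import Pool.Agent.Lib.MP_49c83e_al.P.P5
import Pool.Agent.Lib.MP_49c83e_al.P.P8
import Pool.Agent.Lib.MP_49c83e_al.P.P9
import Pool.Agent.Lib.MP_49c83e_al.P.R15
import Pool.Agent.Lib.MP_49c83e_al.P.E8
import Pool.Agent.Lib.MP_49c83e_al.P.E9
import Pool.Agent.Lib.MP_49c83e_al.P.P10
import Pool.Agent.Lib.MP_49c83e_al.P.P11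
import Pool.Agent.Lib.MP_49c83e_al.P.P12
import Pool.Agent.Lib.MP_49c83e_al.P.P13
import Pool.Agent.Lib.MP_49c83e_al.P.P14
import Pool.Agent.Lib.MP_49c83e_al.P.P15
import Pool.Agent.Lib.MP_49c83e_al.P.C4
import Pool.Agent.Lib.MP_49c83e_al.P.D1
import Pool.Agent.Lib.MP_49c83e_al.P.D2
import Pool.Agent.Lib.MP_49c83e_al.P.D3
import Pool.Agent.Lib.MP_49c83e_al.P.D9
import Pool.Agent.Lib.MP_49c83e_al.P.E11
import Pool.Agent.Lib.MP_49c83e_al.P.E12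
import Pool.Agent.Lib.MP_49c83e_al.P.E13

/-!
MP_49c83e_al: assembly of the proved pieces.
-/

namespace Pool.Agent.Sp49

theorem t_C0 : S_C0 := p_C0

theorem t_C1 : S_C1 := p_C1

theorem t_D7 : S_D7 := p_D7

theorem t_G1 : S_G1 := p_G1

theorem t_G2 : S_G2 := p_G2

theorem t_G3 : S_G3 := p_G3

theorem t_M1 : S_M1 := p_M1

theorem t_M14 : S_M14 := p_M14

theorem t_M3 : S_M3 := p_M3

theorem t_M4 : S_M4 := p_M4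

theorem t_M5 : S_M5 := p_M5

theorem t_M6 : S_M6 := p_M6 t_G1 t_M4

theorem t_M7 : S_M7 := p_M7 t_M4 t_M6

theorem t_M8 : S_M8 := p_M8

theorem t_M9 : S_M9 := p_M9

theorem t_P1 : S_P1 := p_P1

theorem t_P2 : S_P2 := p_P2

theorem t_P4 : S_P4 := p_P4

theorem t_P6 : S_P6 := p_P6

theorem t_P7 : S_P7 := p_P7

theorem t_R1 : S_R1 := p_R1

theorem t_R10 : S_R10 := p_R10

theorem t_R11 : S_R11 := p_R11

theorem t_R12 : S_R12 := p_R12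

theorem t_R13 : S_R13 := p_R13

theorem t_R14 : S_R14 := p_R14

theorem t_R2 : S_R2 := p_R2

theorem t_R3 : S_R3 := p_R3

theorem t_R4 : S_R4 := p_R4

theorem t_R5 : S_R5 := p_R5 t_R1

theorem t_R6 : S_R6 := p_R6

theorem t_R7 : S_R7 := p_R7 t_R3

theorem t_R8 : S_R8 := p_R8 t_R2

theorem t_R9 : S_R9 := p_R9

theorem t_C2 : S_C2 := p_C2 t_R8 t_R9 t_C1

theorem t_C3 : S_C3 := p_C3 t_R2 t_R8 t_R9

theorem t_D0 : S_D0 := p_D0 t_R8 t_R9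

theorem t_D4 : S_D4 := p_D4 t_R2 t_R9 t_R10

theorem t_D5 : S_D5 := p_D5 t_R1 t_R13

theorem t_D6 : S_D6 := p_D6 t_R2 t_R3 t_R8 t_R9 t_R10 t_D0 t_D4 t_D5

theorem t_D8 : S_D8 := p_D8 t_R2 t_R3 t_R5 t_R8 t_R9 t_R10 t_R12 t_D4 t_D5 t_D6 t_D7

theorem t_E1 : S_E1 := p_E1 t_R3 t_R5 t_R11 t_R13

theorem t_E10 : S_E10 := p_E10 t_E1 t_R8 t_R9

theorem t_E2 : S_E2 := p_E2 t_E1 t_D4 t_R3 t_R8 t_R9 t_R13

theorem t_E3 : S_E3 := p_E3 t_E1 t_E2 t_R2 t_R3 t_R7 t_R11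

theorem t_E4 : S_E4 := p_E4 t_R2 t_R3 t_E1 t_E2 t_E3

theorem t_E5 : S_E5 := p_E5 t_E1 t_E2 t_E3 t_R2 t_R3 t_R5 t_R7

theorem t_E6 : S_E6 := p_E6 t_R3 t_R8 t_R9 t_R12 t_D4 t_D7 t_E2

theorem t_E7 : S_E7 := p_E7 t_R3 t_R4 t_E2

theorem t_G4 : S_G4 := p_G4 t_G1 t_G2 t_G3 t_R3 t_R9 t_R11

theorem t_G5 : S_G5 := p_G5 t_R3 t_R9 t_R12 t_D4 t_D7 t_E2

theorem t_G6 : S_G6 := p_G6 t_G4 t_G5 t_E2 t_R2 t_R3 t_R5 t_R6 t_R8 t_R9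

theorem t_M10 : S_M10 := p_M10 t_M4 t_M9

theorem t_M11 : S_M11 := p_M11 t_M1 t_M4 t_M5

theorem t_M12 : S_M12 := p_M12 t_M4

theorem t_M13 : S_M13 := p_M13 t_M7 t_M8 t_M10 t_M11 t_M12 t_E1 t_E2 t_E3

theorem t_M2 : S_M2 := p_M2 t_M1 t_R13

theorem t_P3 : S_P3 := p_P3 t_R2 t_R8 t_R14 t_P1

theorem t_P5 : S_P5 := p_P5 t_P4 t_R14

theorem t_P8 : S_P8 := p_P8 t_R6 t_R14 t_P4 t_P6

theorem t_P9 : S_P9 := p_P9 t_R2 t_P1 t_P2 t_P3 t_P4 t_P5 t_P6 t_P7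

theorem t_R15 : S_R15 := p_R15 t_R2 t_R3 t_R7

theorem t_E8 : S_E8 := p_E8 t_R3 t_R4 t_R8 t_R9 t_R15 t_E3 t_E4 t_E7

theorem t_E9 : S_E9 := p_E9 t_R3 t_R4 t_R8 t_R9 t_R15 t_E3 t_E4 t_E7

theorem t_P10 : S_P10 := p_P10 t_R6 t_P9

theorem t_P11 : S_P11 := p_P11 t_R2 t_R8 t_P1 t_P2 t_P3 t_P4

theorem t_P12 : S_P12 := p_P12 t_R6 t_P11

theorem t_P13 : S_P13 := p_P13 t_R2 t_R3 t_R7 t_P8 t_P10

theorem t_P14 : S_P14 := p_P14 t_R2 t_R3 t_R5 t_R7 t_R8 t_P8 t_P10 t_P12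

theorem t_P15 : S_P15 := p_P15 t_R2 t_R3 t_R5 t_R7 t_R8 t_P8 t_P10

theorem t_C4 : S_C4 := p_C4 t_R2 t_R3 t_R8 t_R9 t_P15 t_C0 t_C2

theorem t_D1 : S_D1 := p_D1 t_P13 t_P14 t_C3 t_R8 t_R9

theorem t_D2 : S_D2 := p_D2 t_P13 t_P14 t_C0 t_C2 t_R3 t_R8 t_R9

theorem t_D3 : S_D3 := p_D3 t_R3 t_R8 t_R9 t_P13 t_P14 t_C3 t_D4

theorem t_D9 : S_D9 := p_D9 t_D1 t_D2 t_D3 t_D8

theorem t_E11 : S_E11 := p_E11 t_D9 t_E2 t_E3 t_E4 t_E10 t_D0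

theorem t_E12 : S_E12 := p_E12 t_E6 t_E7 t_E8 t_E9 t_E11

theorem t_E13 : S_E13 := p_E13 t_R2 t_R3 t_C4 t_E12

/-- the main theorem follows from the SL_2 part -/
theorem main_of_III (h : S_III) : S_Main :=
  t_M14 t_E1 t_E2 t_E3 t_E4 t_E5 t_E13 t_G6 t_M2 t_M3 t_M13 t_R1 t_R3 h

end Pool.Agent.Sp49
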