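import Mathlib

/-!
MP_49c83e_al, interface between the Sp_2n part and the SL_2 part (Theorem III of
/team-store/MP_49c83e_paper.md).

Functions h : Finset ℕ → k are elements of the exterior-like algebra with basis omega_T.
`PP Z q` : the functions supported on the subsets T of Z with q elements all of whose
partial contractions vanish (for 2q ≤ card Z the span of the products of q factors
(omega_a - omega_b) over disjoint pairs in Z).  `cap i` : the cap on the places i, i+1.
`frm Z q` : the bilinear form for which the omega_T are orthonormal.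
-/

namespace Pool.Agent.Sp49

variable {k : Type} [Field k]

/-- functions supported on q-subsets of Z, killed by all contractions -/
def PP (k : Type) [Field k] (Z : Finset ℕ) (q : ℕ) : Submodule k (Finset ℕ → k) where
  carrier := {h | (∀ T, h T ≠ 0 → T ⊆ Z ∧ T.card = q) ∧
    ∀ T' : Finset ℕ, T' ⊆ Z → T'.card < q →
      ∑ T ∈ (Z.powersetCard q).filter (fun T => T' ⊆ T), h T = 0}
  zero_mem' := by
    refine ⟨fun T h => absurd rfl h, fun T' _ _ => ?_⟩
    simp
  add_mem' := by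
    rintro a b ⟨ha, ha'⟩ ⟨hb, hb'⟩
    refine ⟨fun T hT => ?_, fun T' h1 h2 => ?_⟩
    · by_cases h0 : a T = 0
      · apply hb
        intro h1
        apply hT
        simp [h0, h1]
      · exact ha T h0
    · simp only [Pi.add_apply, Finset.sum_add_distrib, ha' T' h1 h2, hb' T' h1 h2, add_zero]
  smul_mem' := by
    rintro c a ⟨ha, ha'⟩
    refine ⟨fun T hT => ?_, fun T' h1 h2 => ?_⟩
    · apply ha
      intro h1
      apply hT
      simp [h1]
    · simp only [Pi.smul_apply, smul_eq_mul, ← Finset.mul_sum, ha' T' h1 h2, mul_zero]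

/-- the cap on the places i, i+1 -/
def cap (i : ℕ) (h : Finset ℕ → k) : Finset ℕ → k := fun T =>
  if i ∉ T ∧ i + 1 ∉ T then h (insert (i + 1) T) - h (insert i T) else 0

/-- the form with orthonormal basis omega_T, on the q-subsets of Z -/
def frm (Z : Finset ℕ) (q : ℕ) (h h' : Finset ℕ → k) : k :=
  ∑ T ∈ Z.powersetCard q, h T * h' T

def Z1 (n i : ℕ) : Finset ℕ := Finset.range n \ {i, i + 1}
def Z2 (n i j : ℕ) : Finset ℕ := Finset.range n \ {i, i + 1, j, j + 1}
def Z3 (n i j l : ℕ) : Finset ℕ := Finset.range n \ {i, i + 1, j, j + 1, l, l + 1}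

/-- z is a 2-cochain of K(L) : z i j in PP (Z2 n i j) (r-2) for i+2 ≤ j, j+1 < n -/
def Coch2 (n r : ℕ) (z : ℕ → ℕ → Finset ℕ → k) : Prop :=
  ∀ i j, i + 2 ≤ j → j + 1 < n → z i j ∈ PP k (Z2 n i j) (r - 2)

/-- the cocycle condition in K^3(L) -/
def Cocy2 (n r : ℕ) (z : ℕ → ℕ → Finset ℕ → k) : Prop :=
  ∀ i j l, i + 2 ≤ j → j + 2 ≤ l → l + 1 < n → ∀ h ∈ PP k (Z3 n i j l) (r - 3),
    frm (Z3 n i j l) (r - 3) (cap i (z j l) - cap j (z i l) + cap l (z i j)) h = 0

/-- z is a coboundary in K^2(L) -/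
def Cob2 (n r : ℕ) (z : ℕ → ℕ → Finset ℕ → k) : Prop :=
  ∃ y : ℕ → Finset ℕ → k, (∀ i, i + 1 < n → y i ∈ PP k (Z1 n i) (r - 1)) ∧
    ∀ i j, i + 2 ≤ j → j + 1 < n → ∀ h ∈ PP k (Z2 n i j) (r - 2),
      frm (Z2 n i j) (r - 2) (z i j - (cap i (y j) - cap j (y i))) h = 0

/-- Theorem III: the second cohomology of the complex K(L(omega_2r)) has dimension at most 1. -/
def S_III : Prop :=
  ∀ (k : Type) [Field k] [IsAlgClosed k] (p : ℕ) [Fact p.Prime] [CharP k p] (n r : ℕ),
    2 ≤ r → 2 * r ≤ n → ∀ z z' : ℕ → ℕ → Finset ℕ → k,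
    Coch2 n r z → Coch2 n r z' → Cocy2 n r z → Cocy2 n r z' →
    ∃ c c' : k, (c ≠ 0 ∨ c' ≠ 0) ∧ Cob2 n r (fun i j => c • z i j + c' • z' i j)

end Pool.Agent.Sp49
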