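import Mathlib

/-!
MP_49c83e_al: sets with an algebra of regular functions, vector valued regular maps,
rational modules and rational (Hochschild) cohomology in degrees 0, 1, 2.
-/

namespace Pool.Agent.Sp49

open scoped BigOperators

/-- a set X with a k-algebra of regular functions on X -/
class RS (k : Type) [Field k] (X : Type) where
  alg : Subalgebra k (X → k)

section Basic

variable (k : Type) [Field k]

/-- the algebra of regular functions -/
def regA (X : Type) [RS k X] : Subalgebra k (X → k) := RS.alg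

/-- vector valued regular maps: the span of the maps x ↦ f x • m -/
def RM (X : Type) [RS k X] (M : Type) [AddCommGroup M] [Module k M] : Submodule k (X → M) :=
  Submodule.span k {F | ∃ f ∈ regA k X, ∃ m : M, F = fun x => f x • m}

/-- regular maps between sets with regular functions -/
def IsReg {X Y : Type} [RS k X] [RS k Y] (φ : X → Y) : Prop :=
  ∀ f ∈ regA k Y, (fun x => f (φ x)) ∈ regA k X

instance prodRS (X Y : Type) [RS k X] [RS k Y] : RS k (X × Y) :=
  ⟨Algebra.adjoin k ({F | ∃ f ∈ regA k X, F = fun q => f q.1} ∪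
    {F | ∃ f ∈ regA k Y, F = fun q => f q.2})⟩

/-- polynomial functions on k^ι -/
instance powRS (ι : Type) : RS k (ι → k) :=
  ⟨Algebra.adjoin k {F | ∃ i : ι, F = fun u : ι → k => u i}⟩

/-- polynomial functions on k -/
instance lineRS : RS k k := ⟨Algebra.adjoin k {fun s : k => s}⟩

/-- Laurent polynomial functions on the torus (k^*)^ι -/
instance torRS (ι : Type) : RS k (ι → kˣ) :=
  ⟨Algebra.adjoin k ({F | ∃ i : ι, F = fun t : ι → kˣ => (t i : k)} ∪
    {F | ∃ i : ι, F = fun t : ι → kˣ => (((t i)⁻¹ : kˣ) : k)})⟩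

/-- Laurent polynomial functions on k^* -/
instance unitRS : RS k kˣ :=
  ⟨Algebra.adjoin k {fun s : kˣ => (s : k), fun s : kˣ => ((s⁻¹ : kˣ) : k)}⟩

/-- regular functions on a subgroup: restrictions -/
instance subgroupRS (Γ : Type) [Group Γ] [RS k Γ] (H : Subgroup Γ) : RS k H :=
  ⟨{ carrier := {F | ∃ f ∈ regA k Γ, F = fun h : H => f (h : Γ)}
     mul_mem' := by
       rintro _ _ ⟨f, hf, rfl⟩ ⟨g, hg, rfl⟩
       exact ⟨f * g, Subalgebra.mul_mem _ hf hg, rfl⟩
     one_mem' := ⟨1, Subalgebra.one_mem _, rfl⟩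
     add_mem' := by
       rintro _ _ ⟨f, hf, rfl⟩ ⟨g, hg, rfl⟩
       exact ⟨f + g, Subalgebra.add_mem _ hf hg, rfl⟩
     zero_mem' := ⟨0, Subalgebra.zero_mem _, rfl⟩
     algebraMap_mem' := fun c => ⟨algebraMap k _ c, Subalgebra.algebraMap_mem _ c, rfl⟩ }⟩

/-- groups whose multiplication and inversion are regular -/
class RG (Γ : Type) [Group Γ] [RS k Γ] : Prop where
  mul_reg : IsReg k (fun q : Γ × Γ => q.1 * q.2)
  inv_reg : IsReg k (fun g : Γ => g⁻¹)

end Basic

section Coh

variable {k : Type} [Field k] {Γ : Type} [Group Γ] [RS k Γ]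
  {M : Type} [AddCommGroup M] [Module k M]

/-- rational representations: all orbit maps are regular -/
def IsRat (ρ : Representation k Γ M) : Prop := ∀ m : M, (fun g => ρ g m) ∈ RM k Γ M

/-- coboundary of a 0-cochain -/
def d0 (ρ : Representation k Γ M) : M →ₗ[k] (Γ → M) where
  toFun m := fun g => ρ g m - m
  map_add' a b := by
    funext g
    simp only [map_add, Pi.add_apply]
    abel
  map_smul' c a := by
    funext g
    simp only [map_smul, RingHom.id_apply, Pi.smul_apply, smul_sub]

/-- coboundary of a 1-cochain -/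
def d1 (ρ : Representation k Γ M) : (Γ → M) →ₗ[k] (Γ × Γ → M) where
  toFun ψ := fun q => ρ q.1 (ψ q.2) - ψ (q.1 * q.2) + ψ q.1
  map_add' a b := by
    funext q
    simp only [map_add, Pi.add_apply]
    abel
  map_smul' c a := by
    funext q
    simp only [map_smul, RingHom.id_apply, Pi.smul_apply, smul_sub, smul_add]

/-- coboundary of a 2-cochain -/
def d2 (ρ : Representation k Γ M) : (Γ × Γ → M) →ₗ[k] (Γ × Γ × Γ → M) where
  toFun f := fun q => ρ q.1 (f (q.2.1, q.2.2)) - f (q.1 * q.2.1, q.2.2) +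
    f (q.1, q.2.1 * q.2.2) - f (q.1, q.2.1)
  map_add' a b := by
    funext q
    simp only [map_add, Pi.add_apply]
    abel
  map_smul' c a := by
    funext q
    simp only [map_smul, RingHom.id_apply, Pi.smul_apply, smul_sub, smul_add]

/-- invariants -/
def Z0 (ρ : Representation k Γ M) : Submodule k M := LinearMap.ker (d0 ρ)

/-- rational 1-cocycles -/
def Zc1 (ρ : Representation k Γ M) : Submodule k (Γ → M) := RM k Γ M ⊓ LinearMap.ker (d1 ρ)

/-- 1-coboundaries -/
def Bc1 (ρ : Representation k Γ M) : Submodule k (Γ → M) := LinearMap.range (d0 ρ)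

/-- rational 2-cocycles -/
def Zc2 (ρ : Representation k Γ M) : Submodule k (Γ × Γ → M) :=
  RM k (Γ × Γ) M ⊓ LinearMap.ker (d2 ρ)

/-- rational 2-coboundaries -/
def Bc2 (ρ : Representation k Γ M) : Submodule k (Γ × Γ → M) := (RM k Γ M).map (d1 ρ)

/-- second rational cohomology: rational 2-cocycles modulo coboundaries of regular
1-cochains (the second cohomology of the Hochschild complex of regular cochains) -/
abbrev H2 (ρ : Representation k Γ M) : Type := ↥(Zc2 ρ) ⧸ (Bc2 ρ).submoduleOf (Zc2 ρ)

end Coh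

/-- the quotient Z / (Z ∩ B) has dimension at most one -/
def Le1 {k V : Type} [Field k] [AddCommGroup V] [Module k V] (Z B : Submodule k V) : Prop :=
  ∀ z ∈ Z, ∀ z' ∈ Z, ∃ c c' : k, (c ≠ 0 ∨ c' ≠ 0) ∧ c • z + c' • z' ∈ B

end Pool.Agent.Sp49
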