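import Pool.Agent.Lib.MP_49c83e_al.Reg
import Pool.Agent.Lib.MP_49c83e_al.III

/-!
MP_49c83e_al: the symplectic group, its torus, Borel subgroup, parabolic subgroups and root
elements; weights; coefficient extraction; the statement of the main theorem.
Index set Fin n ⊕ Fin n, e_i = inl i, f_i = inr i.
-/

namespace Pool.Agent.Sp49

open Matrix

/-- Sp_2n(k) -/
abbrev SpG (k : Type) [Field k] (n : ℕ) : Type := ↥(Matrix.symplecticGroup (Fin n) k)

section Group

variable (k : Type) [Field k] (n : ℕ)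

/-- regular functions on Sp_2n: polynomials in the matrix entries -/
instance spRS : RS k (SpG k n) :=
  ⟨Algebra.adjoin k {F | ∃ x y : Fin n ⊕ Fin n, F = fun g : SpG k n =>
    (g : Matrix (Fin n ⊕ Fin n) (Fin n ⊕ Fin n) k) x y}⟩

variable {k n}

/-- matrix entries -/
def ent (g : SpG k n) (x y : Fin n ⊕ Fin n) : k :=
  (g : Matrix (Fin n ⊕ Fin n) (Fin n ⊕ Fin n) k) x y

theorem ent_mul (g h : SpG k n) (x y : Fin n ⊕ Fin n) :
    ent (g * h) x y = ∑ z, ent g x z * ent h z y := by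
  simp [ent, Matrix.mul_apply]

theorem ent_one (x y : Fin n ⊕ Fin n) : ent (1 : SpG k n) x y = if x = y then 1 else 0 := by
  simp [ent, Matrix.one_apply]

/-- g maps the span of e_0, ..., e_l to itself, for all l in S -/
def Qf (S : Set ℕ) (g : SpG k n) : Prop :=
  ∀ l : Fin n, (l : ℕ) ∈ S → ∀ l' : Fin n, l' ≤ l → ∀ x, ent g x (Sum.inl l') ≠ 0 →
    ∃ l'' : Fin n, l'' ≤ l ∧ x = Sum.inl l''

theorem Qf_one (S : Set ℕ) : Qf S (1 : SpG k n) := by
  intro l _ l' hl' x hx
  rw [ent_one] at hx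
  by_cases h : x = Sum.inl l'
  · exact ⟨l', hl', h⟩
  · simp [h] at hx

theorem Qf_mul (S : Set ℕ) (g h : SpG k n) (hg : Qf S g) (hh : Qf S h) : Qf S (g * h) := by
  intro l hl l' hl' x hx
  rw [ent_mul] at hx
  obtain ⟨z, _, hz⟩ := Finset.exists_ne_zero_of_sum_ne_zero hx
  obtain ⟨l'', h1, rfl⟩ := hh l hl l' hl' z (right_ne_zero_of_mul hz)
  exact hg l hl l'' h1 x (left_ne_zero_of_mul hz)

variable (k n)

/-- the parabolic subgroup stabilising the spans of e_0, ..., e_l for l in S -/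
def Par (S : Set ℕ) : Subgroup (SpG k n) where
  carrier := {g | Qf S g ∧ Qf S g⁻¹}
  mul_mem' := by
    rintro a b ⟨ha, ha'⟩ ⟨hb, hb'⟩
    refine ⟨Qf_mul S a b ha hb, ?_⟩
    rw [_root_.mul_inv_rev]
    exact Qf_mul S _ _ hb' ha'
  one_mem' := by
    refine ⟨Qf_one S, ?_⟩
    rw [inv_one]
    exact Qf_one S
  inv_mem' := by
    rintro a ⟨ha, ha'⟩
    refine ⟨ha', ?_⟩
    rw [inv_inv]
    exact ha

theorem Par_anti {S S' : Set ℕ} (h : S ⊆ S') : Par k n S' ≤ Par k n S :=
  fun _ hg => ⟨fun l hl => hg.1 l (h hl), fun l hl => hg.2 l (h hl)⟩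

/-- the Borel subgroup: stabiliser of the full isotropic flag -/
abbrev Bo : Subgroup (SpG k n) := Par k n Set.univ

/-- the unipotent radical of the Borel subgroup -/
def Uo : Subgroup (SpG k n) where
  carrier := {g | g ∈ Bo k n ∧ ∀ i : Fin n, ent g (Sum.inl i) (Sum.inl i) = 1}
  mul_mem' := by
    rintro a b ⟨ha, ha'⟩ ⟨hb, hb'⟩
    refine ⟨mul_mem ha hb, fun i => ?_⟩
    rw [ent_mul, Finset.sum_eq_single (Sum.inl i), ha', hb', one_mul]
    · intro z _ hz
      by_contra hne
      obtain ⟨l, hl, rfl⟩ := hb.1 i (Set.mem_univ _) i le_rfl z (right_ne_zero_of_mul hne)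
      obtain ⟨l2, hl2, h2⟩ := ha.1 l (Set.mem_univ _) l le_rfl (Sum.inl i)
        (left_ne_zero_of_mul hne)
      have h3 : i = l2 := Sum.inl_injective h2
      subst h3
      exact hz (by rw [le_antisymm hl hl2])
    · intro h
      exact absurd (Finset.mem_univ _) h
  one_mem' := ⟨one_mem _, fun i => by simp [ent_one]⟩
  inv_mem' := by
    rintro a ⟨ha, ha'⟩
    refine ⟨inv_mem ha, fun i => ?_⟩
    have h1 : ent (a⁻¹ * a) (Sum.inl i) (Sum.inl i) = 1 := by simp [ent_one]
    rw [ent_mul, Finset.sum_eq_single (Sum.inl i), ha', mul_one] at h1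
    · exact h1
    · intro z _ hz
      by_contra hne
      obtain ⟨l, hl, rfl⟩ := ha.1 i (Set.mem_univ _) i le_rfl z (right_ne_zero_of_mul hne)
      obtain ⟨l2, hl2, h2⟩ := (inv_mem ha).1 l (Set.mem_univ _) l le_rfl (Sum.inl i)
        (left_ne_zero_of_mul hne)
      have h3 : i = l2 := Sum.inl_injective h2
      subst h3
      exact hz (by rw [le_antisymm hl hl2])
    · intro h
      exact absurd (Finset.mem_univ _) h

variable {k n}

theorem diag_mem (t : Fin n → kˣ) :
    Matrix.fromBlocks (Matrix.diagonal fun i => (t i : k)) 0 0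
      (Matrix.diagonal fun i => (((t i)⁻¹ : kˣ) : k)) ∈ Matrix.symplecticGroup (Fin n) k := by
  rw [SymplecticGroup.fromBlocks_mem_iff]
  refine ⟨by simp, by simp, ?_⟩
  simp [Matrix.diagonal_mul_diagonal]

/-- the torus element diag(t, t^-1) -/
def tor (t : Fin n → kˣ) : SpG k n := ⟨_, diag_mem t⟩

theorem xr_mem (a b : Fin n) (hab : a ≠ b) (s : k) :
    Matrix.fromBlocks (1 + Matrix.single a b s) 0 0 (1 - Matrix.single b a s) ∈
      Matrix.symplecticGroup (Fin n) k := by
  rw [SymplecticGroup.fromBlocks_mem_iff]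
  refine ⟨by simp, by simp, ?_⟩
  simp [Matrix.add_mul, Matrix.mul_sub, Matrix.transpose_single, hab]

/-- root element for eps_a - eps_b : e_b ↦ e_b + s e_a, f_a ↦ f_a - s f_b (identity if a = b) -/
def xr (a b : Fin n) (s : k) : SpG k n :=
  if h : a ≠ b then ⟨_, xr_mem a b h s⟩ else 1

theorem xl_mem (a : Fin n) (s : k) :
    Matrix.fromBlocks 1 (Matrix.single a a s) 0 1 ∈ Matrix.symplecticGroup (Fin n) k := by
  rw [SymplecticGroup.fromBlocks_mem_iff]
  refine ⟨by simp, by simp [Matrix.transpose_single], by simp⟩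

/-- long root element: f_a ↦ f_a + s e_a -/
def xl (a : Fin n) (s : k) : SpG k n := ⟨_, xl_mem a s⟩

theorem yl_mem (a : Fin n) (s : k) :
    Matrix.fromBlocks 1 0 (Matrix.single a a s) 1 ∈ Matrix.symplecticGroup (Fin n) k := by
  rw [SymplecticGroup.fromBlocks_mem_iff]
  refine ⟨by simp [Matrix.transpose_single], by simp, by simp⟩

/-- long root element: e_a ↦ e_a + s f_a -/
def yl (a : Fin n) (s : k) : SpG k n := ⟨_, yl_mem a s⟩

/-- x_i(s) for the simple root alpha_i = eps_i - eps_(i+1); trivial if i + 1 ≥ n -/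
def xs (i : ℕ) (s : k) : SpG k n :=
  if h : i + 1 < n then xr ⟨i, by omega⟩ ⟨i + 1, h⟩ s else 1

/-- the opposite root element y_i(s) -/
def ys (i : ℕ) (s : k) : SpG k n :=
  if h : i + 1 < n then xr ⟨i + 1, h⟩ ⟨i, by omega⟩ s else 1

end Group

section Weights

variable {k : Type} [Field k] {n : ℕ} {M : Type} [AddCommGroup M] [Module k M]

/-- the character t ↦ prod t_i ^ mu_i of the torus -/
def chT (μ : Fin n → ℤ) (t : Fin n → kˣ) : k := ((∏ i, (t i) ^ (μ i) : kˣ) : k)

/-- weight spaces of a representation of Sp_2n -/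
def wtG (ρ : Representation k (SpG k n) M) (μ : Fin n → ℤ) : Submodule k M where
  carrier := {m | ∀ t, ρ (tor t) m = chT μ t • m}
  add_mem' := by
    intro a b ha hb t
    rw [map_add, ha t, hb t, smul_add]
  zero_mem' := by
    intro t
    simp
  smul_mem' := by
    intro c a ha t
    rw [map_smul, ha t, smul_comm]

/-- the fundamental weight omega_j = (1^j, 0^(n-j)) -/
def om (n j : ℕ) : Fin n → ℤ := fun i => if (i : ℕ) < j then 1 else 0

/-- the simple root alpha_i = eps_i - eps_(i+1) -/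
def al (n i : ℕ) : Fin n → ℤ := fun l => if (l : ℕ) = i then 1 else if (l : ℕ) = i + 1 then -1 else 0

/-- rho has a maximal vector of weight omega_j: nonzero, fixed by the unipotent radical of the
Borel subgroup, and of weight omega_j -/
def HasHW (ρ : Representation k (SpG k n) M) (j : ℕ) : Prop :=
  ∃ v : M, v ≠ 0 ∧ v ∈ wtG ρ (om n j) ∧ ∀ u ∈ Uo k n, ρ u v = v

end Weights

/-- Main theorem (positive answer to Q1). -/
def S_Main : Prop :=
  ∀ (k : Type) [Field k] [IsAlgClosed k] (p : ℕ) [Fact p.Prime] [CharP k p] (n j : ℕ),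
    1 ≤ j → j ≤ n → ∀ (L : Type) [AddCommGroup L] [Module k L]
    (ρ : Representation k (SpG k n) L), IsRat ρ → ρ.IsIrreducible → HasHW ρ j →
    Module.rank k (H2 ρ) ≤ 1

end Pool.Agent.Sp49
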