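import Pool.Agent.Lib.MP_49c83e_al.StmC

/-!
MP_49c83e_al: torus and simple root elements as elements of the Borel subgroup, coefficient
extraction, weight projections, raising operators and the maps phi.
-/

namespace Pool.Agent.Sp49

open scoped BigOperators
open Matrix

section

variable {k : Type} [Field k] {n : ℕ}

theorem ent_tor (t : Fin n → kˣ) (x : Fin n ⊕ Fin n) (l : Fin n) :
    ent (tor t) x (Sum.inl l) = if x = Sum.inl l then (t l : k) else 0 := by
  rcases x with i | i
  · by_cases h : i = l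
    · subst h
      simp [ent, tor, Matrix.diagonal]
    · have h2 : (Sum.inl i : Fin n ⊕ Fin n) ≠ Sum.inl l := fun h3 => h (Sum.inl_injective h3)
      simp [ent, tor, Matrix.diagonal, h]
  · simp [ent, tor]

theorem tor_mul (t t' : Fin n → kˣ) : tor (t * t') = tor t * tor t' := by
  apply Subtype.ext
  simp [tor, Matrix.diagonal_mul_diagonal, mul_comm]

theorem tor_one : tor (1 : Fin n → kˣ) = 1 := by
  apply Subtype.ext
  simp [tor, Matrix.fromBlocks_one]

theorem tor_inv (t : Fin n → kˣ) : (tor t)⁻¹ = tor t⁻¹ := by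
  rw [inv_eq_iff_mul_eq_one, ← tor_mul, mul_inv_cancel, tor_one]

theorem Qf_tor (S : Set ℕ) (t : Fin n → kˣ) : Qf S (tor t) := by
  intro l _ l' hl' x hx
  rw [ent_tor] at hx
  by_cases h : x = Sum.inl l'
  · exact ⟨l', hl', h⟩
  · simp [h] at hx

theorem tor_mem_Par (S : Set ℕ) (t : Fin n → kˣ) : tor t ∈ Par k n S :=
  ⟨Qf_tor S t, by rw [tor_inv]; exact Qf_tor S _⟩

/-- torus elements as elements of the Borel subgroup -/
def torB (t : Fin n → kˣ) : Bo k n := ⟨tor t, tor_mem_Par _ t⟩

theorem ent_xr (a b : Fin n) (hab : a ≠ b) (s : k) (x : Fin n ⊕ Fin n) (l : Fin n) :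
    ent (xr a b s) x (Sum.inl l) =
      if x = Sum.inl l then 1 else if x = Sum.inl a ∧ l = b then s else 0 := by
  rcases x with i | i
  · by_cases h : i = l
    · subst h
      have : ¬ (a = i ∧ b = i) := fun h3 => hab (h3.1.trans h3.2.symm)
      simp [ent, xr, hab, Matrix.single, this]
    · have h2 : (Sum.inl i : Fin n ⊕ Fin n) ≠ Sum.inl l := fun h3 => h (Sum.inl_injective h3)
      by_cases h3 : a = i ∧ b = l
      · obtain ⟨rfl, rfl⟩ := h3
        simp [ent, xr, hab, Matrix.single]
      · have h4 : ¬ ((Sum.inl i : Fin n ⊕ Fin n) = Sum.inl a ∧ l = b) := by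
          rintro ⟨h5, h6⟩
          exact h3 ⟨(Sum.inl_injective h5).symm, h6.symm⟩
        simp only [h2, if_false, h4]
        simp [ent, xr, hab, Matrix.single, h, h3]
  · simp [ent, xr, hab]

theorem xr_add (a b : Fin n) (s t : k) : xr a b (s + t) = xr a b s * xr a b t := by
  by_cases h : a ≠ b
  · apply Subtype.ext
    simp only [xr, h, ne_eq, not_false_eq_true, dif_pos, Submonoid.coe_mul,
      Matrix.fromBlocks_multiply]
    congr 1
    · have : Matrix.single a b s * Matrix.single a b t = 0 := by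
        rw [Matrix.single_mul_single_of_ne]
        exact fun h3 => h h3.symm
      simp [Matrix.add_mul, Matrix.mul_add, this, Matrix.single_add, add_assoc]
    · simp
    · simp
    · have : Matrix.single b a s * Matrix.single b a t = 0 := by
        rw [Matrix.single_mul_single_of_ne]
        exact h
      simp [Matrix.sub_mul, Matrix.mul_sub, this, Matrix.single_add]
      abel
  · simp [xr, h]

theorem xr_zero (a b : Fin n) : xr a b (0 : k) = 1 := by
  have h := xr_add a b (0 : k) 0
  rw [add_zero] at h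
  exact mul_left_cancel (h.symm.trans (mul_one _).symm)

theorem xr_inv (a b : Fin n) (s : k) : (xr a b s)⁻¹ = xr a b (-s) := by
  rw [inv_eq_iff_mul_eq_one, ← xr_add, add_neg_cancel, xr_zero]

theorem Qf_xs (i : ℕ) (s : k) : Qf Set.univ (xs (n := n) i s) := by
  intro l _ l' hl' x hx
  unfold xs at hx
  split_ifs at hx with h
  · have hne : (⟨i, by omega⟩ : Fin n) ≠ ⟨i + 1, h⟩ := by
      intro h2
      have := congrArg Fin.val h2
      simp at this
    rw [ent_xr _ _ hne] at hx
    split_ifs at hx with h2 h3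
    · exact ⟨l', hl', h2⟩
    · refine ⟨⟨i, by omega⟩, ?_, h3.1⟩
      refine le_trans ?_ hl'
      rw [h3.2]
      exact Nat.le_succ i
    · exact absurd rfl hx
  · rw [ent_one] at hx
    by_cases h2 : x = Sum.inl l'
    · exact ⟨l', hl', h2⟩
    · simp [h2] at hx

theorem xs_add (i : ℕ) (s t : k) : xs (n := n) i (s + t) = xs i s * xs i t := by
  unfold xs
  split_ifs
  · exact xr_add _ _ s t
  · simp

theorem xs_zero (i : ℕ) : xs (n := n) i (0 : k) = 1 := by
  have h := xs_add (n := n) i (0 : k) 0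
  rw [add_zero] at h
  exact mul_left_cancel (h.symm.trans (mul_one _).symm)

theorem xs_inv (i : ℕ) (s : k) : (xs (n := n) i s)⁻¹ = xs i (-s) := by
  rw [inv_eq_iff_mul_eq_one, ← xs_add, add_neg_cancel, xs_zero]

/-- simple root elements as elements of the Borel subgroup -/
def xB (i : ℕ) (s : k) : Bo k n :=
  ⟨xs i s, Qf_xs i s, by rw [xs_inv]; exact Qf_xs i _⟩

end

section Coef

variable {k : Type} [Field k] {M : Type} [AddCommGroup M] [Module k M]

open Classical in
/-- coefficient of s^r of a polynomial map k → M (0 if the map is not polynomial) -/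
noncomputable def cf (r : ℕ) (F : k → M) : M :=
  if h : ∃ c : ℕ →₀ M, ∀ s : k, F s = c.sum (fun i m => s ^ i • m) then h.choose r else 0

open Classical in
/-- coefficient of the character mu of a regular map on the torus -/
noncomputable def tcf {n : ℕ} (μ : Fin n → ℤ) (F : (Fin n → kˣ) → M) : M :=
  if h : ∃ c : (Fin n → ℤ) →₀ M, ∀ t, F t = c.sum (fun ν m => chT ν t • m) then h.choose μ else 0

end Coef

section Mods

variable {k : Type} [Field k] {n : ℕ} {N : Type} [AddCommGroup N] [Module k N]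

/-- weight spaces of a representation of the Borel subgroup -/
def wtB (ρ : Representation k (Bo k n) N) (μ : Fin n → ℤ) : Submodule k N where
  carrier := {m | ∀ t, ρ (torB t) m = chT μ t • m}
  add_mem' := by
    intro a b ha hb t
    rw [map_add, ha t, hb t, smul_add]
  zero_mem' := by
    intro t
    simp
  smul_mem' := by
    intro c a ha t
    rw [map_smul, ha t, smul_comm]

/-- weight projection -/
noncomputable def prB (ρ : Representation k (Bo k n) N) (μ : Fin n → ℤ) (m : N) : N :=
  tcf μ (fun t => ρ (torB t) m)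

/-- raising operator: coefficient of s in x_i(s) m -/
noncomputable def Eo (ρ : Representation k (Bo k n) N) (i : ℕ) (m : N) : N :=
  cf 1 (fun s => ρ (xB i s) m)

/-- phi^1_i of a 1-cochain -/
noncomputable def ph1 (ρ : Representation k (Bo k n) N) (i : ℕ) (c : Bo k n → N) : N :=
  prB ρ (al n i) (cf 1 (fun s => c (xB i s)))

/-- phi_ij of a 2-cochain -/
noncomputable def ph2 (ρ : Representation k (Bo k n) N) (i j : ℕ)
    (f : Bo k n × Bo k n → N) : N :=
  prB ρ (al n i + al n j)
    (cf 1 (fun s => cf 1 (fun t => f (xB i s, xB j t) - f (xB j t, xB i s))))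

/-- subrepresentation -/
def subR {Γ : Type} [Group Γ] (ρ : Representation k Γ N) (P : Submodule k N)
    (h : ∀ g, ∀ m ∈ P, ρ g m ∈ P) : Representation k Γ P where
  toFun g := (ρ g).restrict (h g)
  map_one' := by
    ext
    simp
  map_mul' a b := by
    ext
    simp

/-- quotient representation -/
def quoR {Γ : Type} [Group Γ] (ρ : Representation k Γ N) (P : Submodule k N)
    (h : ∀ g, ∀ m ∈ P, ρ g m ∈ P) : Representation k Γ (N ⧸ P) where
  toFun g := P.mapQ P (ρ g) (fun m hm => h g m hm)
  map_one' := by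
    ext
    simp
  map_mul' a b := by
    ext
    simp

theorem quoR_mk {Γ : Type} [Group Γ] (ρ : Representation k Γ N) (P : Submodule k N)
    (h : ∀ g, ∀ m ∈ P, ρ g m ∈ P) (g : Γ) (m : N) :
    quoR ρ P h g (Submodule.Quotient.mk m) = Submodule.Quotient.mk (ρ g m) := rfl

/-- H^2(Bo, N) → H^2(K(N)) is injective -/
def Mono2 (ρ : Representation k (Bo k n) N) : Prop :=
  ∀ f ∈ Zc2 ρ, (∃ y : ℕ → N, (∀ i, i + 1 < n → y i ∈ wtB ρ (al n i)) ∧
    ∀ i j, i + 2 ≤ j → j + 1 < n → ph2 ρ i j f = Eo ρ i (y j) - Eo ρ j (y i)) → f ∈ Bc2 ρ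

/-- Z^1(Bo, N) → Z^1(K(N)) is surjective -/
def Epi1 (ρ : Representation k (Bo k n) N) : Prop :=
  ∀ y : ℕ → N, (∀ i, i + 1 < n → y i ∈ wtB ρ (al n i)) →
    (∀ i j, i + 2 ≤ j → j + 1 < n → Eo ρ i (y j) = Eo ρ j (y i)) →
    ∃ c ∈ Zc1 ρ, ∀ i, i + 1 < n → ph1 ρ i c = y i

/-- weights with entries in {0, 1, -1} -/
def SmallB (ρ : Representation k (Bo k n) N) : Prop :=
  ∀ μ, wtB ρ μ ≠ ⊥ → ∀ i, μ i = 0 ∨ μ i = 1 ∨ μ i = -1

/-- restriction of a representation of Sp_2n to the Borel subgroup -/
def resB (ρ : Representation k (SpG k n) N) : Representation k (Bo k n) N :=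
  ρ.comp (Subgroup.subtype (Bo k n))

end Mods

end Pool.Agent.Sp49
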