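import Pool.Agent.Lib.MP_49c83e_al.SpB

/-!
MP_49c83e_al, block E: weights, raising operators and devissage on the Borel subgroup.
-/

namespace Pool.Agent.Sp49

open scoped BigOperators

/-- [E1] Calculus of the coefficient functionals cf and tcf (k infinite), from [R11], [R13]:
values on expansions, additivity, scalars, linear images, regularity of s ↦ cf r (F(s, .)),
interchange of two coefficients. -/
def S_E1 : Prop := ∀ (k : Type) [Field k] [Infinite k] (M M' : Type) [AddCommGroup M]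
    [Module k M] [AddCommGroup M'] [Module k M'],
    (∀ (c : ℕ →₀ M) (r : ℕ), cf r (fun s : k => c.sum fun i m => s ^ i • m) = c r) ∧
    (∀ (F G : k → M) (r : ℕ), F ∈ RM k k M → G ∈ RM k k M →
      cf r (fun s => F s + G s) = cf r F + cf r G) ∧
    (∀ (F G : k → M) (r : ℕ), F ∈ RM k k M → G ∈ RM k k M →
      cf r (fun s => F s - G s) = cf r F - cf r G) ∧
    (∀ (F : k → M) (a : k) (r : ℕ), F ∈ RM k k M → cf r (fun s => a • F s) = a • cf r F) ∧
    (∀ (F : k → M) (l : M →ₗ[k] M') (r : ℕ), F ∈ RM k k M →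
      cf r (fun s => l (F s)) = l (cf r F)) ∧
    (∀ (X : Type) [RS k X] (F : X × k → M) (r : ℕ), F ∈ RM k (X × k) M →
      (fun x => cf r (fun s => F (x, s))) ∈ RM k X M) ∧
    (∀ (F : k × k → M) (r r' : ℕ), F ∈ RM k (k × k) M →
      cf r (fun s => cf r' (fun t => F (s, t))) = cf r' (fun t => cf r (fun s => F (s, t)))) ∧
    (∀ (n : ℕ) (c : (Fin n → ℤ) →₀ M) (μ : Fin n → ℤ),
      tcf μ (fun t : Fin n → kˣ => c.sum fun ν m => chT ν t • m) = c μ) ∧
    (∀ (n : ℕ) (F G : (Fin n → kˣ) → M) (μ : Fin n → ℤ), F ∈ RM k (Fin n → kˣ) M →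
      G ∈ RM k (Fin n → kˣ) M → tcf μ (fun t => F t + G t) = tcf μ F + tcf μ G) ∧
    (∀ (n : ℕ) (F : (Fin n → kˣ) → M) (l : M →ₗ[k] M') (μ : Fin n → ℤ),
      F ∈ RM k (Fin n → kˣ) M → tcf μ (fun t => l (F t)) = l (tcf μ F))

/-- [E2] Weight projections of a rational Bo-module: linear, image in the weight space, identity
on the weight space, zero on the other weight spaces, finite decomposition, naturality;
xB and torB are regular. -/
def S_E2 : Prop := ∀ (k : Type) [Field k] [Infinite k] (n : ℕ) (N N' : Type) [AddCommGroup N]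
    [Module k N] [AddCommGroup N'] [Module k N'] (ρ : Representation k (Bo k n) N)
    (ρ' : Representation k (Bo k n) N'), IsRat ρ → IsRat ρ' →
    IsReg k (fun t : Fin n → kˣ => (torB t : Bo k n)) ∧
    (∀ i, IsReg k (fun s : k => (xB i s : Bo k n))) ∧
    (∀ (μ : Fin n → ℤ) (a b : N), prB ρ μ (a + b) = prB ρ μ a + prB ρ μ b) ∧
    (∀ (μ : Fin n → ℤ) (c : k) (a : N), prB ρ μ (c • a) = c • prB ρ μ a) ∧
    (∀ (μ : Fin n → ℤ) (a : N), prB ρ μ a ∈ wtB ρ μ) ∧
    (∀ (μ : Fin n → ℤ) (a : N), a ∈ wtB ρ μ → prB ρ μ a = a) ∧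
    (∀ (μ ν : Fin n → ℤ) (a : N), a ∈ wtB ρ ν → μ ≠ ν → prB ρ μ a = 0) ∧
    (∀ a : N, ∃ s : Finset (Fin n → ℤ), a = ∑ μ ∈ s, prB ρ μ a ∧
      ∀ μ, μ ∉ s → prB ρ μ a = 0) ∧
    (∀ l : N →ₗ[k] N', (∀ b m, l (ρ b m) = ρ' b (l m)) →
      ∀ (μ : Fin n → ℤ) (a : N), prB ρ' μ (l a) = l (prB ρ μ a))

/-- [E3] Raising operators: linear, natural, raise weights by alpha_i, commute with the weight
projections accordingly (torB t * xB i s = xB i ((t_i / t_(i+1)) s) * torB t), and commute for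
|i - j| ≥ 2; the root elements xB i s and xB j t commute for |i - j| ≥ 2. -/
def S_E3 : Prop := ∀ (k : Type) [Field k] [Infinite k] (n : ℕ) (N N' : Type) [AddCommGroup N]
    [Module k N] [AddCommGroup N'] [Module k N'] (ρ : Representation k (Bo k n) N)
    (ρ' : Representation k (Bo k n) N'), IsRat ρ → IsRat ρ' →
    (∀ i (a b : N), Eo ρ i (a + b) = Eo ρ i a + Eo ρ i b) ∧
    (∀ i (c : k) (a : N), Eo ρ i (c • a) = c • Eo ρ i a) ∧
    (∀ l : N →ₗ[k] N', (∀ b m, l (ρ b m) = ρ' b (l m)) → ∀ i (a : N),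
      Eo ρ' i (l a) = l (Eo ρ i a)) ∧
    (∀ i (μ : Fin n → ℤ) (a : N), i + 1 < n → prB ρ (μ + al n i) (Eo ρ i a) =
      Eo ρ i (prB ρ μ a)) ∧
    (∀ i (μ : Fin n → ℤ) (a : N), i + 1 < n → a ∈ wtB ρ μ → Eo ρ i a ∈ wtB ρ (μ + al n i)) ∧
    (∀ i j (s t : k), i + 2 ≤ j → (xB i s : Bo k n) * xB j t = xB j t * xB i s) ∧
    (∀ i j (a : N), i + 2 ≤ j → Eo ρ i (Eo ρ j a) = Eo ρ j (Eo ρ i a))

/-- [E4] The maps phi: linearity and naturality, and the formula for coboundaries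
phi_ij(d psi) = E_i phi_j(psi) - E_j phi_i(psi).
Proof of the formula: (d psi)(a, b) - (d psi)(b, a) = (a - 1) psi(b) - (b - 1) psi(a) for the commuting
elements a = xB i s, b = xB j t; take the coefficient of s t and project ([E3]). -/
def S_E4 : Prop := ∀ (k : Type) [Field k] [Infinite k] (n : ℕ) (N N' : Type) [AddCommGroup N]
    [Module k N] [AddCommGroup N'] [Module k N'] (ρ : Representation k (Bo k n) N)
    (ρ' : Representation k (Bo k n) N'), IsRat ρ → IsRat ρ' →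
    (∀ i j (f g : Bo k n × Bo k n → N), f ∈ RM k (Bo k n × Bo k n) N →
      g ∈ RM k (Bo k n × Bo k n) N → ph2 ρ i j (f + g) = ph2 ρ i j f + ph2 ρ i j g) ∧
    (∀ i j (c : k) (f : Bo k n × Bo k n → N), f ∈ RM k (Bo k n × Bo k n) N →
      ph2 ρ i j (c • f) = c • ph2 ρ i j f) ∧
    (∀ i j (f : Bo k n × Bo k n → N), f ∈ RM k (Bo k n × Bo k n) N →
      ∀ l : N →ₗ[k] N', (∀ b m, l (ρ b m) = ρ' b (l m)) →
      ph2 ρ' i j (fun q => l (f q)) = l (ph2 ρ i j f)) ∧
    (∀ i (f g : Bo k n → N), f ∈ RM k (Bo k n) N → g ∈ RM k (Bo k n) N →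
      ph1 ρ i (f + g) = ph1 ρ i f + ph1 ρ i g) ∧
    (∀ i (f g : Bo k n → N), f ∈ RM k (Bo k n) N → g ∈ RM k (Bo k n) N →
      ph1 ρ i (f - g) = ph1 ρ i f - ph1 ρ i g) ∧
    (∀ i (c : k) (f : Bo k n → N), f ∈ RM k (Bo k n) N → ph1 ρ i (c • f) = c • ph1 ρ i f) ∧
    (∀ i (f : Bo k n → N), f ∈ RM k (Bo k n) N →
      ∀ l : N →ₗ[k] N', (∀ b m, l (ρ b m) = ρ' b (l m)) →
      ph1 ρ' i (fun q => l (f q)) = l (ph1 ρ i f)) ∧
    (∀ i (f : Bo k n → N), ph1 ρ i f ∈ wtB ρ (al n i)) ∧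
    (∀ i j (f : Bo k n × Bo k n → N), ph2 ρ i j f ∈ wtB ρ (al n i + al n j)) ∧
    (∀ i j (ψ : Bo k n → N), i + 2 ≤ j → j + 1 < n → ψ ∈ RM k (Bo k n) N →
      ph2 ρ i j (d1 ρ ψ) = Eo ρ i (ph1 ρ j ψ) - Eo ρ j (ph1 ρ i ψ))

/-- [E5] The cocycle condition in degree 3: for a 2-cocycle f and i, j, l pairwise non-adjacent,
E_i phi_jl - E_j phi_il + E_l phi_ij = 0.
Proof: put g(b, c) = f(b, c) - f(c, b).  Antisymmetrising d f (a, b, c) = 0 over the commuting
elements a = xB i s, b = xB j t, c = xB l r gives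
(a - 1) g(b, c) + (b - 1) g(c, a) + (c - 1) g(a, b) = 0; take the coefficient of s t r and project to
the weight alpha_i + alpha_j + alpha_l. -/
def S_E5 : Prop := ∀ (k : Type) [Field k] [Infinite k] (n : ℕ) (N : Type) [AddCommGroup N]
    [Module k N] (ρ : Representation k (Bo k n) N), IsRat ρ → ∀ f ∈ Zc2 ρ,
    ∀ i j l, i + 2 ≤ j → j + 2 ≤ l → l + 1 < n →
      Eo ρ i (ph2 ρ j l f) - Eo ρ j (ph2 ρ i l f) + Eo ρ l (ph2 ρ i j f) = 0

/-- [E6] A nonzero finite dimensional rational Bo-module has a Bo-stable line: a vector v ≠ 0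
with rho(b) v = chB mu b • v (in particular v in wtB mu).
Proof: choose mu with wtB mu ≠ 0 and m(mu) = sum mu_i (n - i) maximal (finitely many weights), v in
wtB mu.  For u in Uo: coch(s) u coch(s)⁻¹ tends to 1 ([D7]): writing u v = sum over nu of v_nu,
(coch(s) u coch(s)⁻¹) v = sum of s^(m(nu) - m(mu)) v_nu is a polynomial in s with constant term v;
by maximality only exponents ≤ 0 occur, so it is constant, equal to v (its value at s = 1 is u v and its
constant term is v).  Then b = tpart(b) (tpart(b)⁻¹ b) ([D4]). -/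
def S_E6 : Prop := ∀ (k : Type) [Field k] [Infinite k] (n : ℕ) (N : Type) [AddCommGroup N]
    [Module k N] [Module.Finite k N] [Nontrivial N] (ρ : Representation k (Bo k n) N), IsRat ρ →
    ∃ (μ : Fin n → ℤ) (v : N), v ≠ 0 ∧ v ∈ wtB ρ μ ∧
      ∀ b : Bo k n, ρ b v = ((chB k μ b : kˣ) : k) • v

/-- [E7] Sub- and quotient modules: rationality, small weights. (A weight vector of the
quotient lifts to a weight vector by applying prB.) -/
def S_E7 : Prop := ∀ (k : Type) [Field k] [Infinite k] (n : ℕ) (N : Type) [AddCommGroup N]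
    [Module k N] (ρ : Representation k (Bo k n) N) (P : Submodule k N)
    (h : ∀ g, ∀ m ∈ P, ρ g m ∈ P), IsRat ρ →
    IsRat (subR ρ P h) ∧ IsRat (quoR ρ P h) ∧
    (SmallB ρ → SmallB (subR ρ P h) ∧ SmallB (quoR ρ P h)) ∧
    (∀ (μ : Fin n → ℤ) (x : N ⧸ P), x ∈ wtB (quoR ρ P h) μ →
      ∃ a ∈ wtB ρ μ, Submodule.Quotient.mk a = x)

/-- [E8] Devissage for Epi1: P sub, N/P quotient; Epi1 and Mono2 for P, Epi1 for N/P ⟹ Epi1 for N.
Proof: y a cocycle in K^1(N); its image is ph1 of a cocycle c'' of N/P; lift c'' to a regular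
c : Bo → N ([R4]); d1 c is a 2-cocycle with values in P.  y'_i := y_i - ph1_i c lies in P, has weight
alpha_i, and ph2(d1 c) = -(E_i y'_j - E_j y'_i).  By Mono2 for P, d1 c = d1 c' with c' regular,
P-valued.  Then y'_i + ph1_i c' is a cocycle in K^1(P), so equals ph1_i c3 with c3 a P-valued
1-cocycle (Epi1); take c - c' + c3. -/
def S_E8 : Prop := ∀ (k : Type) [Field k] [Infinite k] (n : ℕ) (N : Type) [AddCommGroup N]
    [Module k N] (ρ : Representation k (Bo k n) N) (P : Submodule k N)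
    (h : ∀ g, ∀ m ∈ P, ρ g m ∈ P), IsRat ρ →
    Mono2 (subR ρ P h) → Epi1 (subR ρ P h) → Epi1 (quoR ρ P h) → Epi1 ρ

/-- [E9] Devissage for Mono2: Mono2 for P and N/P and Epi1 for N/P ⟹ Mono2 for N.
Proof: f a 2-cocycle with ph2 f = E_i y_j - E_j y_i.  Its image in N/P is d1 psi'' ; lift psi'' to
psi; f1 = f - d1 psi is a P-valued 2-cocycle and ph2 f1 = E_i w_j - E_j w_i with
w_i = y_i - ph1_i psi.  The image w'' of w is a cocycle in K^1(N/P), so w'' = ph1 c'' ; lift c'' to c;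
d1 c is P-valued, f2 = f1 - d1 c, ph2 f2 = E_i w'_j - E_j w'_i with w'_i = w_i - ph1_i c in P.
By Mono2 for P f2 is a coboundary. -/
def S_E9 : Prop := ∀ (k : Type) [Field k] [Infinite k] (n : ℕ) (N : Type) [AddCommGroup N]
    [Module k N] (ρ : Representation k (Bo k n) N) (P : Submodule k N)
    (h : ∀ g, ∀ m ∈ P, ρ g m ∈ P), IsRat ρ →
    Mono2 (subR ρ P h) → Mono2 (quoR ρ P h) → Epi1 (quoR ρ P h) → Mono2 ρ

/-- [E10] The classes x_i and x_i ∪ x_j of characters: c(b) = b_(i,i+1) / b_(i+1,i+1) is a cocycle of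
chR alpha_i with ph1_i c = 1 and g(a, b) = c_i(a) alpha_j(a) c_j(b) is a 2-cocycle of
chR (alpha_i + alpha_j) with ph2 i j g = 1 (i + 2 ≤ j). -/
def S_E10 : Prop := ∀ (k : Type) [Field k] [Infinite k] (n : ℕ),
    (∀ i, i + 1 < n → ∃ c ∈ Zc1 (chR k (al n i)), ph1 (chR k (al n i)) i c = 1) ∧
    (∀ i j, i + 2 ≤ j → j + 1 < n → ∃ g ∈ Zc2 (chR k (al n i + al n j)),
      ph2 (chR k (al n i + al n j)) i j g = 1)

/-- [E11] One dimensional modules with small weight satisfy Mono2 and Epi1; more generally every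
one dimensional N (spanned by v with rho(b) v = chB mu b v).
Proof: for chR mu, weights: wtB nu = 0 for nu ≠ mu.  Epi1: if mu = alpha_i use the multiple of the
class of [E10] (alpha_i ≠ alpha_j for i ≠ j), else y = 0.  Mono2: if mu is not alpha_i + alpha_j use
[D9]; if mu = alpha_i + alpha_j all y_l are 0 (mu ≠ alpha_l), so ph2 f = 0 for all pairs; by [D9]
c f + c' g is a coboundary d1 psi with (c, c') ≠ 0; ph2 (d1 psi) = 0 as ph1 psi = 0; so c' = 0, c ≠ 0.
Transport along N = k v. -/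
def S_E11 : Prop := ∀ (k : Type) [Field k] [Infinite k] (n : ℕ) (N : Type) [AddCommGroup N]
    [Module k N] (ρ : Representation k (Bo k n) N) (μ : Fin n → ℤ) (v : N), IsRat ρ →
    (∀ i, μ i = 0 ∨ μ i = 1 ∨ μ i = -1) → (∀ m : N, ∃ c : k, m = c • v) → v ≠ 0 →
    (∀ b : Bo k n, ρ b v = ((chB k μ b : kˣ) : k) • v) → Mono2 ρ ∧ Epi1 ρ

/-- [E12] Conclusion on Bo: finite dimensional rational modules with small weights satisfy
Mono2 (and Epi1). Induction on the dimension with [E6], [E7], [E8], [E9], [E11] (P = k v). -/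
def S_E12 : Prop := ∀ (k : Type) [Field k] [Infinite k] (n d : ℕ) (N : Type) [AddCommGroup N]
    [Module k N] [Module.Finite k N] (ρ : Representation k (Bo k n) N), IsRat ρ →
    Module.finrank k N = d → SmallB ρ → Mono2 ρ ∧ Epi1 ρ

/-- [E13] Theorem I: for a finite dimensional rational Sp_2n-module M with small weights, a
2-cocycle f with phi(f) in the image of K^1(M) is a coboundary. ([C4] and [E12].) -/
def S_E13 : Prop := ∀ (k : Type) [Field k] [Infinite k] (n : ℕ) (M : Type) [AddCommGroup M]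
    [Module k M] [Module.Finite k M] (ρ : Representation k (SpG k n) M), IsRat ρ →
    (∀ μ, wtG ρ μ ≠ ⊥ → ∀ i, μ i = 0 ∨ μ i = 1 ∨ μ i = -1) →
    IsRat (resB ρ) ∧ ∀ f ∈ Zc2 ρ,
      (fun q : Bo k n × Bo k n => f ((q.1 : SpG k n), (q.2 : SpG k n))) ∈ Zc2 (resB ρ) ∧
      ((∃ y : ℕ → M, (∀ i, i + 1 < n → y i ∈ wtG ρ (al n i)) ∧ ∀ i j, i + 2 ≤ j → j + 1 < n →
        ph2 (resB ρ) i j (fun q : Bo k n × Bo k n => f ((q.1 : SpG k n), (q.2 : SpG k n))) =
          Eo (resB ρ) i (y j) - Eo (resB ρ) j (y i)) → f ∈ Bc2 ρ)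

end Pool.Agent.Sp49
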