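import Pool.Agent.Lib.MP_49c83e_al.StmE

/-!
MP_49c83e_al, block G: generation of Sp_2n, the rank one argument, and the model of L(omega_j)
by minors of symplectic matrices, in the even part of the exterior algebra.
-/

namespace Pool.Agent.Sp49

open scoped BigOperators
open Matrix

section Defs

variable {k : Type} [Field k] {n : ℕ}

/-- transpose, an anti-automorphism of Sp_2n -/
def trG (g : SpG k n) : SpG k n :=
  ⟨(g : Matrix (Fin n ⊕ Fin n) (Fin n ⊕ Fin n) k)ᵀ, SymplecticGroup.transpose_mem g.2⟩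

theorem ent_trG (g : SpG k n) (x y : Fin n ⊕ Fin n) : ent (trG g) x y = ent g y x := rfl

theorem trG_mul (g h : SpG k n) : trG (g * h) = trG h * trG g := by
  apply Subtype.ext
  simp [trG, Matrix.transpose_mul]

theorem trG_one : trG (1 : SpG k n) = 1 := by
  apply Subtype.ext
  simp [trG]

theorem trG_inv (g : SpG k n) : trG g⁻¹ = (trG g)⁻¹ := by
  rw [eq_inv_iff_mul_eq_one, ← trG_mul, mul_inv_cancel, trG_one]

variable (k n)

/-- the opposite unipotent group: transposes of the elements of Uo -/
def Um : Subgroup (SpG k n) where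
  carrier := {g | trG g ∈ Uo k n}
  mul_mem' := by
    intro a b ha hb
    have : trG (a * b) ∈ Uo k n := by
      rw [trG_mul]
      exact mul_mem hb ha
    exact this
  one_mem' := by
    have : trG (1 : SpG k n) ∈ Uo k n := by
      rw [trG_one]
      exact one_mem _
    exact this
  inv_mem' := by
    intro a ha
    have : trG a⁻¹ ∈ Uo k n := by
      rw [trG_inv]
      exact inv_mem ha
    exact this

variable {k n}

/-- the torus element with entries a at i, a⁻¹ at i + 1, and 1 elsewhere -/
def hs (n : ℕ) (i : ℕ) (a : kˣ) : Fin n → kˣ := fun l =>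
  if (l : ℕ) = i then a else if (l : ℕ) = i + 1 then a⁻¹ else 1

/-- the torus element with entry a at i and 1 elsewhere -/
def hl (n : ℕ) (i : ℕ) (a : kˣ) : Fin n → kˣ := fun l => if (l : ℕ) = i then a else 1

/-- minors: rows e_0, ..., e_(j-1), columns w -/
def mn {j : ℕ} (hj : j ≤ n) (x : SpG k n) (w : Fin j → Fin n ⊕ Fin n) : k :=
  Matrix.det (Matrix.of fun a b : Fin j => ent x (Sum.inl (Fin.castLE hj a)) (w b))

/-- leading principal minor -/
def dj {j : ℕ} (hj : j ≤ n) (x : SpG k n) : k := mn hj x (fun b => Sum.inl (Fin.castLE hj b))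

/-- weights of the basis vectors -/
def wtv (x : Fin n ⊕ Fin n) : Fin n → ℤ :=
  Sum.elim (fun i => Pi.single i 1) (fun i => -Pi.single i 1) x

end Defs

/-- [G1] Generation of Sp_2n by the torus and the root elements of the simple roots and their
negatives.  Proof: let H be a subgroup containing them.
(1) H contains all xr a b s (commutators [xr a b s, xr b c t] = xr a c (s t); induct on |a - b|).
(2) H contains xl a s, yl a s for all a: conjugate xl l s (l last) by w = xr a l 1 * xr l a (-1) *
xr a l 1 which maps e_l to e_a and f_l to f_a (up to signs).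
(3) H contains fromBlocks 1 0 (C) 1 for C = c (E_am + E_ma), a ≠ m: conjugate yl a c by an xr to get
C = c (u u^T), u = unit_a + unit_m, multiply by yl a (-c), yl m (-c); same for the upper blocks.
(4) Let P_m = {g | g e_i = e_i for i < m}.  For g in P_m, m < n, there is h in H with h g in
P_(m+1): u = g e_m is orthogonal to e_i (i < m), so its f_i-coordinates vanish for i < m, and u is not
in the span of e_0, ..., e_(m-1) (g injective).  With elements of H fixing e_0..e_(m-1): if all
e_i-coordinates (i ≥ m) are 0 apply some xl i 1 (i ≥ m) to make one nonzero; with xr m i 1 make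
the e_m coordinate nonzero; tor to make it 1; xr l m (-u_l) (all l ≠ m) to kill the other e-coordinates;
then yl m and the elements of (3) (C = c (E_im + E_mi), i > m) kill the f-coordinates.
(5) P_n = {fromBlocks 1 B 0 1}, B symmetric, is generated by the upper version of (3) and xl. -/
def S_G1 : Prop := ∀ (k : Type) [Field k] (n : ℕ) (H : Subgroup (SpG k n)),
    (∀ t : Fin n → kˣ, tor t ∈ H) → (∀ (i : ℕ) (s : k), xs i s ∈ H) →
    (∀ (i : ℕ) (s : k), ys i s ∈ H) →
    (∀ (l : Fin n) (s : k), (l : ℕ) + 1 = n → xl l s ∈ H ∧ yl l s ∈ H) → H = ⊤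

/-- [G2] Rank one identities: x(t) y(s) = y(s/(1+ts)) h(1+ts) x(t/(1+ts)) for the simple roots.
Short roots: hs n i a; long root (l last): hl n l a. -/
def S_G2 : Prop := ∀ (k : Type) [Field k] (n : ℕ),
    (∀ (i : ℕ) (t s : k) (a : kˣ), i + 1 < n → (a : k) = 1 + t * s →
      (xs i t : SpG k n) * ys i s = ys i (s * ((a⁻¹ : kˣ) : k)) * tor (hs n i a) *
        xs i (t * ((a⁻¹ : kˣ) : k))) ∧
    (∀ (l : Fin n) (t s : k) (a : kˣ), (a : k) = 1 + t * s →
      (xl l t : SpG k n) * yl l s = yl l (s * ((a⁻¹ : kˣ) : k)) * tor (hl n l a) *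
        xl l (t * ((a⁻¹ : kˣ) : k)))

/-- [G3] The opposite unipotent group Um: it contains ys i s, yl l s, is normalised by the torus,
Uo contains xs i s, xl l s, and Um = U_i * ys i k where U_i is normalised by xs i k (same for the
long simple root).  Proof (transposes): for u in Uo take s = u_(e_i, e_(i+1)), u' = xs i (-s) u; then
u' in Uo has u'_(e_i, e_(i+1)) = 0, and ys i (-t) u' ys i t is again in Uo: it stabilises the spans of
e_0..e_l for l ≠ i, and its block at e_i, e_(i+1) is the identity.  Long root (l = n - 1):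
s = u_(e_l, f_l), u' = xl l (-s) u (note u_(f_l, f_l) = 1), yl l (-t) u' yl l t in Uo: u' maps f_l to
f_l + (span of e_m, m < l) and e_l to e_l + (span of e_m, m < l).  [C1] is useful. -/
def S_G3 : Prop := ∀ (k : Type) [Field k] (n : ℕ),
    (∀ (i : ℕ) (s : k), ys i s ∈ Um k n) ∧ (∀ (l : Fin n) (s : k), yl l s ∈ Um k n) ∧
    (∀ (i : ℕ) (s : k), xs i s ∈ Uo k n) ∧ (∀ (l : Fin n) (s : k), xl l s ∈ Uo k n) ∧
    (∀ (t : Fin n → kˣ), ∀ u ∈ Um k n, tor t * u * (tor t)⁻¹ ∈ Um k n) ∧
    (∀ i : ℕ, i + 1 < n → ∀ u ∈ Um k n, ∃ (s : k) (u' : SpG k n), u = u' * ys i s ∧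
      ∀ t : k, xs i t * u' * (xs i t)⁻¹ ∈ Um k n) ∧
    (∀ l : Fin n, (l : ℕ) + 1 = n → ∀ u ∈ Um k n, ∃ (s : k) (u' : SpG k n), u = u' * yl l s ∧
      ∀ t : k, xl l t * u' * (xl l t)⁻¹ ∈ Um k n)

/-- [G4] The rank one argument: for a vector z of a rational module which is fixed by Uo and of some
weight, the span of all g z is the span of the u z, u in Um.
Proof: let W be the span of the u z, u in Um.  By [G1] it suffices that the generators stabilise W
(the stabiliser {g | g W ≤ W and g⁻¹ W ≤ W} is a subgroup; the generators come with their inverses).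
tor, ys, yl: [G3].  x(t) = xs i t: write u = u' y(s) ([G3]); x(t) u z = (x(t) u' x(t)⁻¹) (x(t) y(s) z), and
for 1 + t s ≠ 0 by [G2] x(t) y(s) z = lambda y(s') z with lambda in k.  So F(t) = x(t) y(s) z, which is
regular in t, lies in the subspace spanned by the y(s') z for all t with 1 + t s ≠ 0, hence for all
t (apply [R11] to the image of F in the quotient by this subspace). -/
def S_G4 : Prop := ∀ (k : Type) [Field k] [Infinite k] (n : ℕ) (N : Type) [AddCommGroup N]
    [Module k N] (ρ : Representation k (SpG k n) N), IsRat ρ → ∀ (μ : Fin n → ℤ) (z : N),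
    z ∈ wtG ρ μ → (∀ u ∈ Uo k n, ρ u z = z) →
    ∀ g, ρ g z ∈ Submodule.span k {m | ∃ u ∈ Um k n, m = ρ u z}

/-- [G5] Contraction: for z of weight mu and u in Um the component of weight mu of u z is z.
Proof: with t = coch(s), (coch s)⁻¹ u (coch s) is the transpose of coch(s) u^T coch(s)⁻¹, whose
entries are s^(a_x - a_y) u^T_(x,y), polynomial in s with value 1 at s = 0 ([D7] or directly), so
(coch s)⁻¹ u (coch s) z is polynomial in s with constant term z; on the other hand it is
the sum over nu of s^(m(mu) - m(nu)) (u z)_nu, m(nu) = sum nu_i (n - i).  So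
sum of (u z)_nu over m(nu) = m(mu) is z; project to the weight mu ([E2]). -/
def S_G5 : Prop := ∀ (k : Type) [Field k] [Infinite k] (n : ℕ) (N : Type) [AddCommGroup N]
    [Module k N] (ρ : Representation k (SpG k n) N), IsRat ρ →
    IsRat (resB ρ) ∧ ∀ (μ : Fin n → ℤ) (z : N),
    z ∈ wtG ρ μ → ∀ u ∈ Um k n, prB (resB ρ) μ (ρ u z) = z

/-- [G6] The function realising L: for L irreducible rational with maximal vector v of weight
omega_j there is a functional eta with eta(g v) = leading principal j-minor of g; L is finite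
dimensional and spanned by the g v; eta separates.
Proof: the span of the g v and {l | eta(g l) = 0 for all g} are subrepresentations.  L finite
dimensional: v is in a span of finitely many m_i by rationality, all g v too.
R = RM k (SpG k n) k with (rho'(h) F)(g) = F(g h) is a rational module ([R5], [R9]), D = dj hj in R
is fixed by Uo and of weight omega_j.  Apply [G4] to z = (D, v) in R × L: if
sum c_g g v = 0 then sum c_g g z = sum c'_u u z (u in Um), so sum c_g D(g) = sum c'_u D(u) = sum c'_u
(evaluate at 1, D(u) = 1 for u in Um: lower triangular) and 0 = sum c'_u u v, whose component of weight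
omega_j is (sum c'_u) v ([G5]), so sum c_g D(g) = 0: eta is well defined. -/
def S_G6 : Prop := ∀ (k : Type) [Field k] [Infinite k] (n j : ℕ) (hj : j ≤ n) (L : Type)
    [AddCommGroup L] [Module k L] (ρ : Representation k (SpG k n) L), IsRat ρ →
    ρ.IsIrreducible → ∀ v : L, v ≠ 0 → v ∈ wtG ρ (om n j) → (∀ u ∈ Uo k n, ρ u v = v) →
    Module.Finite k L ∧ Submodule.span k (Set.range fun g => ρ g v) = ⊤ ∧
    ∃ η : L →ₗ[k] k, (∀ g, η (ρ g v) = dj hj g) ∧ ∀ l : L, (∀ g, η (ρ g l) = 0) → l = 0

/-- [M1] Minors: expansion of a product, torus weights, alternating. -/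
def S_M1 : Prop := ∀ (k : Type) [Field k] (n j : ℕ) (hj : j ≤ n) (x g : SpG k n)
    (w : Fin j → Fin n ⊕ Fin n),
    mn hj (x * g) w = ∑ w' : Fin j → Fin n ⊕ Fin n, (∏ b, ent g (w' b) (w b)) * mn hj x w' ∧
    (∀ t, mn hj (x * tor t) w = chT (∑ b, wtv (w b)) t * mn hj x w) ∧
    (¬ Function.Injective w → mn hj x w = 0) ∧
    (∀ σ : Equiv.Perm (Fin j), mn hj x (fun b => w (σ b)) =
      ((Equiv.Perm.sign σ : ℤ) : k) * mn hj x w)

/-- [M2] The weights of L: if eta is as in [G6] and wtG rho mu ≠ 0 then mu is a sum of weights of j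
distinct basis vectors.  Proof: for l in wtG rho mu, eta(x t l) = mu(t) eta(x l); writing l as a
combination of g v, eta(x t g v) = dj(x t g) = sum over w' of c_w' chT (wt w') t mn x w' ([M1]), only
injective w'; if mu is not one of the wt w' then eta(x l) = 0 for all x by uniqueness ([R13]). -/
def S_M2 : Prop := ∀ (k : Type) [Field k] [Infinite k] (n j : ℕ) (hj : j ≤ n) (L : Type)
    [AddCommGroup L] [Module k L] (ρ : Representation k (SpG k n) L) (v : L) (η : L →ₗ[k] k),
    Submodule.span k (Set.range fun g => ρ g v) = ⊤ → (∀ g, η (ρ g v) = dj hj g) →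
    (∀ l : L, (∀ g, η (ρ g l) = 0) → l = 0) → ∀ μ : Fin n → ℤ, wtG ρ μ ≠ ⊥ →
    ∃ w : Fin j → Fin n ⊕ Fin n, Function.Injective w ∧ μ = ∑ b, wtv (w b)

/-- [M3] Combinatorics of these weights: entries in {0, 1, -1}; alpha_i + alpha_i' (i + 2 ≤ i')
occurs only for even j ≥ 4 (the sum of the entries of a weight is = j mod 2, the sum of the absolute
values is ≤ j). -/
def S_M3 : Prop := ∀ (n j : ℕ) (w : Fin j → Fin n ⊕ Fin n), Function.Injective w →
    (∀ i, (∑ b, wtv (w b)) i = 0 ∨ (∑ b, wtv (w b)) i = 1 ∨ (∑ b, wtv (w b)) i = -1) ∧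
    (∀ i i' : ℕ, i + 2 ≤ i' → i' + 1 < n → ∑ b, wtv (w b) = al n i + al n i' →
      4 ≤ j ∧ Even j)

section Ext

variable (k : Type) [Field k] (n : ℕ)

/-- the natural module -/
abbrev VV : Type := Fin n ⊕ Fin n → k

/-- its exterior algebra -/
abbrev EA : Type := ExteriorAlgebra k (VV k n)

/-- the centre of the exterior algebra, a commutative ring containing all products of two vectors -/
abbrev CE : Type := ↥(Subalgebra.center k (EA k n))

variable {k n}

theorem q2_mem (u w : VV k n) :
    ExteriorAlgebra.ι k u * ExteriorAlgebra.ι k w ∈ Subalgebra.center k (EA k n) := by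
  rw [Subalgebra.mem_center_iff]
  intro b
  induction b using ExteriorAlgebra.induction with
  | algebraMap r => exact Algebra.commutes r _
  | ι x =>
    have h1 := ExteriorAlgebra.ι_add_mul_swap (R := k) x u
    have h2 := ExteriorAlgebra.ι_add_mul_swap (R := k) x w
    have h1' := eq_neg_of_add_eq_zero_left h1
    have h2' := eq_neg_of_add_eq_zero_left h2
    rw [← mul_assoc, h1', neg_mul, mul_assoc, h2', mul_neg, neg_neg, mul_assoc]
  | mul a b ha hb => rw [mul_assoc, hb, ← mul_assoc, ha, mul_assoc]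
  | add a b ha hb => rw [add_mul, mul_add, ha, hb]

/-- the product of two vectors, as a central element -/
def q2 (u w : VV k n) : CE k n := ⟨ExteriorAlgebra.ι k u * ExteriorAlgebra.ι k w, q2_mem u w⟩

/-- basis vectors -/
def bv (x : Fin n ⊕ Fin n) : VV k n := Pi.single x 1

variable (k n)

/-- omega_a = e_a f_a -/
def om2 (a : ℕ) : CE k n :=
  if h : a < n then q2 (bv (Sum.inl ⟨a, h⟩)) (bv (Sum.inr ⟨a, h⟩)) else 0

/-- theta_i = e_i f_(i+1), of weight alpha_i -/
def th (i : ℕ) : CE k n :=
  if h : i + 1 < n then q2 (bv (Sum.inl ⟨i, by omega⟩)) (bv (Sum.inr ⟨i + 1, h⟩)) else 0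

/-- omega_T -/
def OM (T : Finset ℕ) : CE k n := ∏ a ∈ T, om2 k n a

/-- theta_S -/
def TH (S : Finset ℕ) : CE k n := ∏ i ∈ S, th k n i

/-- the i-th divided power of omega -/
def OmS (i : ℕ) : CE k n := ∑ A ∈ (Finset.range n).powersetCard i, OM k n A

variable {k n}

/-- action of matrices on the natural module -/
def act (g : SpG k n) : VV k n →ₗ[k] VV k n :=
  Matrix.mulVecLin (g : Matrix (Fin n ⊕ Fin n) (Fin n ⊕ Fin n) k)

/-- action on the exterior algebra -/
def lam (g : SpG k n) : EA k n →ₐ[k] EA k n := ExteriorAlgebra.map (act g)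

/-- truncation to the coordinates e_0, ..., e_(j-1) -/
def trc {j : ℕ} (hj : j ≤ n) : VV k n →ₗ[k] (Fin j → k) where
  toFun v := fun a => v (Sum.inl (Fin.castLE hj a))
  map_add' _ _ := rfl
  map_smul' _ _ := rfl

/-- the coefficient of e_0 ... e_(j-1), as a functional on the exterior algebra -/
noncomputable def X0 {j : ℕ} (hj : j ≤ n) : EA k n →ₗ[k] k :=
  ExteriorAlgebra.liftAlternating (Pi.single j (Matrix.detRowAlternating.compLinearMap (trc hj)))

/-- the matrix coefficient x ↦ X0(x y) -/
noncomputable def MM {j : ℕ} (hj : j ≤ n) (x : SpG k n) (y : EA k n) : k := X0 hj (lam x y)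

/-- places not used by S -/
def ZS (n : ℕ) (S : Finset ℕ) : Finset ℕ := Finset.range n \ (S ∪ S.image (· + 1))

/-- S is a set of pairwise non-adjacent places of simple short roots -/
def NA (n : ℕ) (S : Finset ℕ) : Prop :=
  (∀ i ∈ S, i + 1 < n) ∧ ∀ i ∈ S, ∀ i' ∈ S, i = i' ∨ i + 2 ≤ i' ∨ i' + 2 ≤ i

/-- alpha_S -/
def alS (n : ℕ) (S : Finset ℕ) : Fin n → ℤ := ∑ i ∈ S, al n i

open Classical in
/-- the coordinates T ↦ MM x (theta_S omega_T) -/
noncomputable def colS {r : ℕ} (hr : 2 * r ≤ n) (S : Finset ℕ) (x : SpG k n) :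
    Finset ℕ → k := fun T =>
  if T ⊆ ZS n S ∧ T.card = r - S.card then MM hr x ((TH k n S * OM k n T : CE k n) : EA k n)
  else 0

/-- polytabloids -/
def pt (k : Type) [Field k] {q : ℕ} (a b : Fin q → ℕ) : Finset ℕ → k := fun T =>
  if T.card = q ∧ ∀ l, (a l ∈ T ∧ b l ∉ T) ∨ (a l ∉ T ∧ b l ∈ T) then
    ∏ l, (if a l ∈ T then -1 else 1) else 0

end Ext

/-- [M4] Calculus of q2, lam, X0, MM.  (X0 vanishes on y ι(v) with trc v = 0 since the exterior algebra
is spanned by the ιMulti and a determinant with a zero row vanishes.) -/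
def S_M4 : Prop := ∀ (k : Type) [Field k] (n : ℕ),
    (∀ u u' w : VV k n, q2 (u + u') w = q2 u w + q2 u' w) ∧
    (∀ u w w' : VV k n, q2 u (w + w') = q2 u w + q2 u w') ∧
    (∀ (c : k) (u w : VV k n), q2 (c • u) w = c • q2 u w) ∧
    (∀ (c : k) (u w : VV k n), q2 u (c • w) = c • q2 u w) ∧
    (∀ u : VV k n, q2 u u = 0) ∧ (∀ u w : VV k n, q2 u w = - q2 w u) ∧
    (∀ u w w' : VV k n, q2 u w * q2 u w' = 0) ∧
    (∀ u w w' : VV k n, q2 w u * q2 w' u = 0) ∧
    (∀ (g : SpG k n) (c : CE k n), lam g (c : EA k n) ∈ Subalgebra.center k (EA k n)) ∧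
    (∀ (g : SpG k n) (u w : VV k n), lam g ((q2 u w : CE k n) : EA k n) =
      ((q2 (act g u) (act g w) : CE k n) : EA k n)) ∧
    (∀ (g : SpG k n) (T : Finset ℕ) (c c' : ℕ → CE k n),
      (∀ a ∈ T, lam g ((c a : CE k n) : EA k n) = ((c' a : CE k n) : EA k n)) →
      lam g ((∏ a ∈ T, c a : CE k n) : EA k n) = ((∏ a ∈ T, c' a : CE k n) : EA k n)) ∧
    (∀ (g h : SpG k n) (y : EA k n), lam (g * h) y = lam g (lam h y)) ∧
    (∀ y : EA k n, lam (1 : SpG k n) y = y) ∧
    (∀ (j : ℕ) (hj : j ≤ n) (x : SpG k n) (w : Fin j → Fin n ⊕ Fin n),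
      MM hj x (ExteriorAlgebra.ιMulti k j (fun b => bv (w b))) = mn hj x w) ∧
    (∀ (j : ℕ) (hj : j ≤ n) (y : EA k n) (v : VV k n), trc hj v = 0 →
      X0 hj (y * ExteriorAlgebra.ι k v) = 0) ∧
    (∀ (j : ℕ) (hj : j ≤ n) (y : EA k n) (v w : VV k n), (trc hj v = 0 ∨ trc hj w = 0) →
      X0 hj (y * ((q2 v w : CE k n) : EA k n)) = 0)

/-- [M5] omega_T theta_S is a product of j = 2 r basis vectors: for S, T with NA n S, T in ZS n S and
card S + card T = r there is an injective family w of basis vectors, with underlying set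
{e_i, f_(i+1) : i in S} ∪ {e_a, f_a : a in T}, whose product is theta_S omega_T; so
MM x (theta_S omega_T) = mn x w. (Products in some order: e.g. list the pairs.) -/
def S_M5 : Prop := ∀ (k : Type) [Field k] (n r : ℕ) (hr : 2 * r ≤ n) (S T : Finset ℕ),
    NA n S → T ⊆ ZS n S → S.card + T.card = r →
    ∃ w : Fin (2 * r) → Fin n ⊕ Fin n, Function.Injective w ∧
      (∀ x : Fin n ⊕ Fin n, (∃ b, w b = x) ↔
        Sum.elim (fun a : Fin n => (a : ℕ) ∈ S ∨ (a : ℕ) ∈ T)
          (fun a : Fin n => (∃ i ∈ S, (a : ℕ) = i + 1) ∨ (a : ℕ) ∈ T) x) ∧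
      ((TH k n S * OM k n T : CE k n) : EA k n) =
        ExteriorAlgebra.ιMulti k (2 * r) (fun b => bv (w b))

/-- [M6] Invariance of the divided powers of omega, and the vanishing of MM on multiples of them.
Proof: (a) by [G1] it suffices to treat the generators g; write
OmS i = A_i + (omega_a + omega_b) A_(i-1) + omega_a omega_b A_(i-2) with A_l the sum over l-subsets of the
other places; for g = xr a b s: omega_a ↦ omega_a - s eta, omega_b ↦ omega_b + s eta, eta = q2 e_a f_b,
eta omega_a = eta omega_b = eta eta = 0, so omega_a + omega_b and omega_a omega_b are fixed.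
xl, yl, tor fix every omega_a.  (b) MM x (y OmS) = X0 (lam x y * OmS) and each omega_A with A
nonempty has a factor omega_a = q2 (e_a) (f_a) with trc f_a = 0. -/
def S_M6 : Prop := ∀ (k : Type) [Field k] (n i : ℕ),
    (∀ g : SpG k n, lam g ((OmS k n i : CE k n) : EA k n) = ((OmS k n i : CE k n) : EA k n)) ∧
    (∀ (j : ℕ) (hj : j ≤ n) (x : SpG k n) (y : EA k n), 1 ≤ i →
      MM hj x (y * ((OmS k n i : CE k n) : EA k n)) = 0)

/-- [M7] The coordinates colS S x lie in PP.  Proof: for T' in ZS n S, card T' < q = r - card S: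
the sum over T ⊇ T' of omega_T theta_S is theta_S omega_T' times the sum of omega_A over the
(q - card T')-subsets A of ZS n S \ T'; replace it by OmS (q - card T'), since
theta_S omega_T' omega_A = 0 if A meets T' (omega_a^2 = 0) or {i, i+1} with i in S
(theta_i omega_i = theta_i omega_(i+1) = 0); conclude with [M6]. -/
def S_M7 : Prop := ∀ (k : Type) [Field k] (n r : ℕ) (hr : 2 * r ≤ n) (S : Finset ℕ) (x : SpG k n),
    NA n S → S.card ≤ r → colS hr S x ∈ PP k (ZS n S) (r - S.card)

/-- [M8] PP is spanned by polytabloids.  Proof: induction on Z (card).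
(0) If 2 q > card Z then PP k Z q = 0: for T ⊆ Z with card T = q, C = Z \ T has less than q
elements and h(T) = sum over T' ⊆ C of (-1)^(card T') (sum over T'' ⊇ T' of h(T'')) = 0
(inclusion-exclusion; T is the only q-subset of Z disjoint from C).
(1) q = 0: PP is spanned by the indicator of the empty set = pt.
(2) z in Z, Z' = Z \ z, h in PP k Z q: h1(T) = h(T ∪ z) (T ⊆ Z') is in PP k Z' (q-1).  By induction h1
is a combination of polytabloids pt a b of Z' with q - 1 pairs; 2(q-1) < card Z', so there is c in Z'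
not used, and the polytabloid with the extra pair (c, z) (a = c, b = z) has the given h1.  So we may
assume h1 = 0; then h is in PP k Z' q and we use induction (or (0)). -/
def S_M8 : Prop := ∀ (k : Type) [Field k] (Z : Finset ℕ) (q : ℕ), 2 * q ≤ Z.card →
    PP k Z q ≤ Submodule.span k {h | ∃ a b : Fin q → ℕ, (∀ l, a l ∈ Z) ∧ (∀ l, b l ∈ Z) ∧
      Function.Injective (Sum.elim a b) ∧ h = pt k a b}

/-- [M9] Existence of elements: (a) a signed permutation whose first j rows are prescribed basis
covectors with distinct numbers: swap e_a ↔ f_a (e_a ↦ - f_a, f_a ↦ e_a) for a = c m with sigma m = true,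
then a permutation of Fin n extending c m ↦ m, acting on both the e and the f.
(b) the product of commuting root elements xr (a l) (b l) 1:
fromBlocks (1 + N) 0 0 (1 - N^T), N = sum of single (a l) (b l) 1, N^2 = 0. -/
def S_M9 : Prop := ∀ (k : Type) [Field k] (n : ℕ),
    (∀ (j : ℕ) (hj : j ≤ n) (c : Fin j → Fin n) (σ : Fin j → Bool), Function.Injective c →
      ∃ x : SpG k n, ∀ (m : Fin j) (y : Fin n ⊕ Fin n), ent x (Sum.inl (Fin.castLE hj m)) y =
        if y = (if σ m then Sum.inr (c m) else Sum.inl (c m)) then 1 else 0) ∧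
    (∀ (q : ℕ) (a b : Fin q → Fin n), Function.Injective (Sum.elim a b) →
      ∃ u : SpG k n,
        (∀ l, act u (bv (Sum.inl (b l))) = bv (Sum.inl (b l)) + bv (Sum.inl (a l))) ∧
        (∀ l, act u (bv (Sum.inr (a l))) = bv (Sum.inr (a l)) - bv (Sum.inr (b l))) ∧
        (∀ c, (∀ l, c ≠ b l) → act u (bv (Sum.inl c)) = bv (Sum.inl c)) ∧
        (∀ c, (∀ l, c ≠ a l) → act u (bv (Sum.inr c)) = bv (Sum.inr c)))

/-- [M10] Every polytabloid of ZS n S with q = r - card S pairs is ± some colS.
Proof: let x be the signed permutation of [M9] for the 2 r vectors e_i, f_(i+1) (i in S),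
e_(a l), f_(b l) (l < q), and u the element of [M9](b).  Use g = x u:
MM g (theta_S omega_T) = X0 (lam x (theta_S * prod over c in T of lam u omega_c)), lam u theta_S = theta_S
and lam u omega_(a l) = omega_(a l) - eta_l, lam u omega_(b l) = omega_(b l) + eta_l,
eta_l = q2 e_(a l) f_(b l), lam u (omega_(a l) omega_(b l)) = omega_(a l) omega_(b l), lam u omega_c = omega_c
for the other c.  All basis vectors v which are not in the list of 2 r vectors satisfy
trc (act x v) = 0, so by [M4] X0 kills lam x of every multiple of omega_(a l), omega_(b l), omega_c.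
So only the T which contain exactly one of a l, b l for each l contribute (card T = q), with the
value (product of -1 (a l in T) or 1 (b l in T)) * X0 (lam x (theta_S prod eta_l)), and the last factor
is ± 1 (determinant of a permutation matrix; [M4], or write the product as ± ιMulti). -/
def S_M10 : Prop := ∀ (k : Type) [Field k] (n r : ℕ) (hr : 2 * r ≤ n) (S : Finset ℕ)
    (a b : Fin (r - S.card) → ℕ), NA n S → S.card ≤ r → (∀ l, a l ∈ ZS n S) →
    (∀ l, b l ∈ ZS n S) → Function.Injective (Sum.elim a b) →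
    ∃ g : SpG k n, colS hr S g = pt k a b ∨ colS hr S g = - pt k a b

/-- [M11] The component of weight alpha_S of dj(x t g) is the sum over T of
MM x (theta_S omega_T) MM g^T (theta_S omega_T).  Proof (Cauchy-Binet): by [M1] dj(x t g) is the sum
over injective w' of (prod_b g_(w' b, e_b)) chT (wt w') t mn x w'; wt w' = alpha_S iff the set of w' is
{e_i, f_(i+1) : i in S} ∪ {e_a, f_a : a in T} for a T ⊆ ZS n S with card S + card T = r; the
w' with this set are w o sigma, w from [M5], and the sum over sigma of sign(sigma) prod_b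
g_(w (sigma b), e_b) is mn (trG g) w (transposed matrix). -/
def S_M11 : Prop := ∀ (k : Type) [Field k] (n r : ℕ) (hr : 2 * r ≤ n) (S : Finset ℕ)
    (x g : SpG k n), NA n S → S.card ≤ r →
    ∃ c : (Fin n → ℤ) →₀ k, (∀ t, dj hr (x * tor t * g) = c.sum fun μ a => chT μ t * a) ∧
      c (alS n S) = ∑ T ∈ (ZS n S).powersetCard (r - S.card), colS hr S x T * colS hr S (trG g) T

/-- [M12] The raising operators.  With i not in S, NA n (insert i S), T ⊆ ZS n S:
xs i s maps e_(i+1) to e_(i+1) + s e_i, f_i to f_i - s f_(i+1), so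
theta_S omega_T ↦ theta_S omega_T + s theta_i theta_S (omega_(T \ {i+1}) if i+1 in T, i not in T;
- omega_(T \ {i}) if i in T, i+1 not in T; 0 otherwise) (if both are in T: omega_i omega_(i+1) is
fixed).  Sum with coefficients h T and reindex: T = T' ∪ {i+1} or T' ∪ {i}, T' ⊆ ZS n (insert i S). -/
def S_M12 : Prop := ∀ (k : Type) [Field k] (n j : ℕ) (hj : j ≤ n) (S : Finset ℕ) (i q : ℕ)
    (h : Finset ℕ → k) (s : k) (x : SpG k n), i ∉ S → NA n (insert i S) → 1 ≤ q →
    ∑ T ∈ (ZS n S).powersetCard q, h T *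
        MM hj (x * xs i s) ((TH k n S * OM k n T : CE k n) : EA k n) =
      ∑ T ∈ (ZS n S).powersetCard q, h T * MM hj x ((TH k n S * OM k n T : CE k n) : EA k n) +
      s * ∑ T ∈ (ZS n (insert i S)).powersetCard (q - 1), cap i h T *
        MM hj x ((TH k n (insert i S) * OM k n T : CE k n) : EA k n)

/-- [M13] The model: for L with maximal vector v of weight omega_2r there are subspaces R S of
(Finset ℕ → k) × L (h and l are related iff l has weight alpha_S and
eta(x l) = sum over T of h T MM x (theta_S omega_T) for all x) with the properties (1) - (5).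
Proof: (2) h in PP is a combination sum c_g colS (trG g) ([M8], [M10]); take
l = sum c_g prB (alpha_S) (g v), use [M11], [E1], [E2] and eta(x prB m) = coefficient of alpha_S in
t ↦ eta(x t m).  Conversely l in wtG is sum c_g g v = sum c_g prB (g v).
(3) eta separates.  (4) h is related to 0 iff h is orthogonal to all colS x, i.e. to PP
([M7], [M8], [M10]).  (5) [M12], [E1] (coefficient of s), [E3] (weight). -/
def S_M13 : Prop := ∀ (k : Type) [Field k] [Infinite k] (n r : ℕ) (hr : 2 * r ≤ n) (L : Type)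
    [AddCommGroup L] [Module k L] (ρ : Representation k (SpG k n) L), IsRat ρ →
    ∀ (v : L) (η : L →ₗ[k] k),
    Submodule.span k (Set.range fun g => ρ g v) = ⊤ → (∀ g, η (ρ g v) = dj hr g) →
    (∀ l : L, (∀ g, η (ρ g l) = 0) → l = 0) →
    ∃ R : Finset ℕ → Submodule k ((Finset ℕ → k) × L), ∀ S : Finset ℕ, NA n S → S.card ≤ r →
      (∀ h l, (h, l) ∈ R S → l ∈ wtG ρ (alS n S)) ∧
      (∀ h ∈ PP k (ZS n S) (r - S.card), ∃ l, (h, l) ∈ R S) ∧
      (∀ l ∈ wtG ρ (alS n S), ∃ h ∈ PP k (ZS n S) (r - S.card), (h, l) ∈ R S) ∧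
      (∀ l, (0, l) ∈ R S → l = 0) ∧
      (∀ h, (h, 0) ∈ R S ↔ ∀ h' ∈ PP k (ZS n S) (r - S.card),
        frm (ZS n S) (r - S.card) h h' = 0) ∧
      (∀ h l i, (h, l) ∈ R S → i ∉ S → NA n (insert i S) → S.card + 1 ≤ r →
        (cap i h, Eo (resB ρ) i l) ∈ R (insert i S))

/-- [M14] Conclusion.  HasHW gives v; [G6] gives eta and finiteness; [M2], [M3] give the hypothesis on
weights of [E13].  If j is odd or j < 4 then wtG (al i + al i') = 0 for i + 2 ≤ i' ([M2], [M3]), so
ph2 of every cocycle is 0 ([E4]: values in wtB = wtG) and every cocycle is a coboundary (y = 0 in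
[E13]).  If j = 2 r, r ≥ 2: for cocycles f, f' choose z i j in PP (Z2 n i j) (r - 2) with
(z i j, ph2 i j f) in R {i, j} ([M13]; ZS n {i, j} = Z2 n i j), z' for f'.  Cocy2: for r ≥ 3 from [E5],
[M13] (5), (4) (linearity of R); for r = 2 cap i (z j l) is supported on sets T with
card (T ∪ {i}) = 0, so it is 0 at the empty set.  [S_III] gives (c, c') and y; l_i with (y i, l_i) in
R {i}; c ph2 f + c' ph2 f' = Eo i l_j - Eo j l_i by (4), (3) and (5).  By [E13] c f + c' f' is a
coboundary.  Finally: if any two elements of a quotient V / W are dependent then its rank is ≤ 1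
(`rank_le_one_iff` or `Module.rank_le_one...`, by contradiction). -/
def S_M14 : Prop := S_E1 → S_E2 → S_E3 → S_E4 → S_E5 → S_E13 → S_G6 → S_M2 → S_M3 → S_M13 → S_R1 →
    S_R3 → S_III → S_Main

end Pool.Agent.Sp49
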